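import Pool.Agent.Lib.KP.SpecT

/-!
# KP (MP_64edc4_ag), block T, BihT: composition of biholomorphisms
-/

set_option autoImplicit false

open Set Filter Topology Metric

namespace KP

theorem tBihT : S_BihT := by
  rintro N m k U D D' ⟨f, g, hf, hg, hfm, hgm, hgf, hfg⟩ ⟨f', g', hf', hg', hfm', hgm', hgf', hfg'⟩
  refine ⟨fun x => f' (f x), fun y => g (g' y), hf'.comp hf hfm, hg.comp hg' hgm',
    fun x hx => hfm' (hfm hx), fun y hy => hgm (hgm' hy), ?_, ?_⟩
  · intro x hx
    dsimp only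
    rw [hgf' _ (hfm hx), hgf x hx]
  · intro y hy
    dsimp only
    rw [hfg _ (hgm' hy), hfg' y hy]

end KP
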