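import Pool.Agent.Lib.KP.SpecT

set_option autoImplicit false

open Set Filter Topology Metric

namespace KP

private noncomputable def mob (a z : ℂ) : ℂ := (a - z) / (1 - (starRingEnd ℂ) a * z)

private theorem mob_ne {a z : ℂ} (ha : ‖a‖ < 1) (hz : ‖z‖ < 1) :
    1 - (starRingEnd ℂ) a * z ≠ 0 := by
  intro h
  have h1 : (starRingEnd ℂ) a * z = 1 := (sub_eq_zero.mp h).symm
  have h2 : ‖a‖ * ‖z‖ = 1 := by
    have := congrArg norm h1
    rwa [norm_mul, RCLike.norm_conj, norm_one] at this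
  have := norm_nonneg a
  have := norm_nonneg z
  nlinarith

private theorem mob_lt {a z : ℂ} (ha : ‖a‖ < 1) (hz : ‖z‖ < 1) : ‖mob a z‖ < 1 := by
  have h1 : 0 < ‖1 - (starRingEnd ℂ) a * z‖ := norm_pos_iff.mpr (mob_ne ha hz)
  unfold mob
  rw [norm_div, div_lt_one h1]
  have h2 : ‖a - z‖ ^ 2 < ‖1 - (starRingEnd ℂ) a * z‖ ^ 2 := by
    have e : ‖1 - (starRingEnd ℂ) a * z‖ ^ 2 - ‖a - z‖ ^ 2 = (1 - ‖a‖ ^ 2) * (1 - ‖z‖ ^ 2) := by
      simp only [← Complex.normSq_eq_norm_sq, Complex.normSq_apply]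
      simp
      ring
    have h3 : 0 < 1 - ‖a‖ ^ 2 := by
      have := norm_nonneg a
      nlinarith
    have h4 : 0 < 1 - ‖z‖ ^ 2 := by
      have := norm_nonneg z
      nlinarith
    have := mul_pos h3 h4
    linarith
  exact (sq_lt_sq₀ (norm_nonneg _) (norm_nonneg _)).mp h2

private theorem mob_mob {a z : ℂ} (ha : ‖a‖ < 1) (hz : ‖z‖ < 1) : mob a (mob a z) = z := by
  have h1 := mob_ne ha hz
  have h2 := mob_ne ha (mob_lt ha hz)
  rw [mob, div_eq_iff h2]
  have hq : mob a z * (1 - (starRingEnd ℂ) a * z) = a - z := div_mul_cancel₀ _ h1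
  linear_combination -hq

private theorem mob_zero (a : ℂ) : mob a 0 = a := by
  unfold mob
  simp

private theorem mob_self (a : ℂ) : mob a a = 0 := by
  unfold mob
  simp

private theorem mob_eq_zero {a z : ℂ} (ha : ‖a‖ < 1) (hz : ‖z‖ < 1) (h : mob a z = 0) :
    z = a := by
  have := mob_mob ha hz
  rw [h, mob_zero] at this
  exact this.symm

private theorem dDiv {n : ℕ} {f g : Cn n → ℂ} {S : Set (Cn n)} (hf : DifferentiableOn ℂ f S)
    (hg : DifferentiableOn ℂ g S) (h : ∀ x ∈ S, g x ≠ 0) :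
    DifferentiableOn ℂ (fun x => f x / g x) S := by
  simp only [div_eq_mul_inv]
  exact hf.mul (hg.inv h)

theorem tBsdP : S_BsdP := by
  intro n
  have hball : ∀ w : Cn n, w ∈ ball (0 : Cn n) 1 ↔ ∀ i, ‖w i‖ < 1 := by
    intro w
    rw [mem_ball_zero_iff, pi_norm_lt_iff one_pos]
  refine ⟨isOpen_ball, ⟨⟨0, mem_ball_self one_pos⟩, (convex_ball (0 : Cn n) 1).isPreconnected⟩,
    isBounded_ball, ?_⟩
  intro p hp
  have hp' := (hball p).mp hp
  set φ : Cn n → Cn n := fun z i => mob (p i) (z i) with hφ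
  have hφm : MapsTo φ (ball (0 : Cn n) 1) (ball (0 : Cn n) 1) := by
    intro z hz
    rw [hball]
    exact fun i => mob_lt (hp' i) ((hball z).mp hz i)
  have hφh : HolOn φ (ball (0 : Cn n) 1) := by
    rw [holOn_iff isOpen_ball, differentiableOn_pi]
    intro i
    exact dDiv (f := fun z : Cn n => p i - z i) (g := fun z : Cn n => 1 - (starRingEnd ℂ) (p i) * z i)
      (by fun_prop) (by fun_prop) (fun z hz => mob_ne (hp' i) ((hball z).mp hz i))
  have hnm : MapsTo (fun z => -φ z) (ball (0 : Cn n) 1) (ball (0 : Cn n) 1) := by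
    intro z hz
    have := hφm hz
    rw [mem_ball_zero_iff] at this ⊢
    rwa [norm_neg]
  have hnh : HolOn (fun z => -φ z) (ball (0 : Cn n) 1) := by
    rw [holOn_iff isOpen_ball] at hφh ⊢
    exact hφh.neg
  have hφφ : ∀ z ∈ ball (0 : Cn n) 1, φ (φ z) = z := by
    intro z hz
    funext i
    exact mob_mob (hp' i) ((hball z).mp hz i)
  refine ⟨fun z => φ (-φ z), hφh.comp hnh hnm, fun z hz => hφm (hnm hz), ?_, ?_, univ, univ_mem, ?_⟩
  · intro x hx
    change φ (-φ (φ (-φ x))) = x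
    rw [hφφ _ (hnm hx), neg_neg, hφφ x hx]
  · funext i
    change mob (p i) (-mob (p i) (p i)) = p i
    rw [mob_self, neg_zero, mob_zero]
  · rintro x ⟨-, hx⟩ hfix
    have hx' := (hball x).mp hx
    have h1 : φ (φ (-φ x)) = φ x := congrArg φ hfix
    rw [hφφ _ (hnm hx)] at h1
    funext i
    have h2 : -mob (p i) (x i) = mob (p i) (x i) := congrFun h1 i
    have h3 : mob (p i) (x i) = 0 := by
      have : (2 : ℂ) * mob (p i) (x i) = 0 := by linear_combination -h2
      simpa using this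
    exact mob_eq_zero (hp' i) (hx' i) h3

end KP
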