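import Pool.Agent.Lib.KP.SpecT

set_option autoImplicit false

open Set Filter Topology Metric

namespace KP

private theorem le_nsq {z : Cn 2} (i : Fin 2) : Complex.normSq (z i) ≤ nsq z := by
  unfold nsq
  exact Finset.single_le_sum (f := fun i => Complex.normSq (z i))
    (fun j _ => Complex.normSq_nonneg _) (Finset.mem_univ i)

private theorem nsq_nonneg (z : Cn 2) : 0 ≤ nsq z :=
  Finset.sum_nonneg fun _ _ => Complex.normSq_nonneg _

theorem tBsdS (h1 : S_SymS) (h2 : S_SymB) (h3 : S_CayS) : S_BsdS := by
  have hc : Continuous (nsq : Cn 2 → ℝ) := by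
    unfold nsq
    exact continuous_finsetSum _ fun i _ => Complex.continuous_normSq.comp (continuous_apply i)
  have hO : IsOpen B2 := isOpen_lt hc continuous_const
  have h0 : (0 : Cn 2) ∈ B2 := by
    change nsq (0 : Cn 2) < 1
    simp [nsq]
  refine ⟨hO, ?_, ?_, h2 2 2 Sg B2 hO h3 h1⟩
  · have hs : StarConvex ℝ (0 : Cn 2) B2 := by
      intro y hy a b ha hb hab
      have hb1 : b ≤ 1 := by linarith
      have e : a • (0 : Cn 2) + b • y = b • y := by rw [smul_zero, zero_add]
      rw [e]
      change nsq (b • y) < 1
      have e2 : nsq (b • y) = b ^ 2 * nsq y := by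
        unfold nsq
        rw [Finset.mul_sum]
        refine Finset.sum_congr rfl fun i _ => ?_
        rw [Pi.smul_apply, Complex.real_smul, Complex.normSq_mul, Complex.normSq_ofReal]
        ring
      rw [e2]
      have hy' : nsq y < 1 := hy
      have := nsq_nonneg y
      have hb2 : b ^ 2 ≤ 1 := by nlinarith
      nlinarith
    exact (hs.isPathConnected h0).isConnected
  · rw [isBounded_iff_forall_norm_le]
    refine ⟨1, fun z hz => ?_⟩
    rw [pi_norm_le_iff_of_nonneg zero_le_one]
    intro i
    have a1 := le_nsq (z := z) i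
    have a2 : nsq z < 1 := hz
    rw [Complex.normSq_eq_norm_sq] at a1
    have := norm_nonneg (z i)
    nlinarith

end KP
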