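import Pool.Agent.Lib.KP.SpecT

set_option autoImplicit false

open Set Filter Topology Metric

namespace KP

private theorem cay_ne {z : ℂ} (hz : 0 < z.im) : z + Complex.I ≠ 0 := by
  intro h
  have := congrArg Complex.im h
  simp at this
  linarith

private theorem cay_lt {z : ℂ} (hz : 0 < z.im) : ‖(z - Complex.I) / (z + Complex.I)‖ < 1 := by
  have h1 : 0 < ‖z + Complex.I‖ := norm_pos_iff.mpr (cay_ne hz)
  rw [norm_div, div_lt_one h1]
  have h2 : ‖z - Complex.I‖ ^ 2 < ‖z + Complex.I‖ ^ 2 := by
    rw [← Complex.normSq_eq_norm_sq, ← Complex.normSq_eq_norm_sq, Complex.normSq_apply,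
      Complex.normSq_apply]
    simp
    nlinarith
  exact (sq_lt_sq₀ (norm_nonneg _) (norm_nonneg _)).mp h2

private theorem cay_ne' {w : ℂ} (hw : ‖w‖ < 1) : 1 - w ≠ 0 := by
  intro h
  have : w = 1 := (sub_eq_zero.mp h).symm
  rw [this] at hw
  simp at hw

private theorem cay_im {w : ℂ} (hw : ‖w‖ < 1) :
    0 < (Complex.I * (1 + w) / (1 - w)).im := by
  have h0 := cay_ne' hw
  have h1 : 0 < Complex.normSq (1 - w) := Complex.normSq_pos.mpr h0
  have h2 : (Complex.I * (1 + w) / (1 - w)).im = (1 - Complex.normSq w) / Complex.normSq (1 - w) := by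
    rw [Complex.div_im, ← sub_div]
    congr 1
    simp [Complex.normSq_apply]
    ring
  rw [h2]
  refine div_pos ?_ h1
  rw [Complex.normSq_eq_norm_sq]
  have := norm_nonneg w
  nlinarith

private theorem dDiv {n : ℕ} {f g : Cn n → ℂ} {S : Set (Cn n)} (hf : DifferentiableOn ℂ f S)
    (hg : DifferentiableOn ℂ g S) (h : ∀ x ∈ S, g x ≠ 0) :
    DifferentiableOn ℂ (fun x => f x / g x) S := by
  simp only [div_eq_mul_inv]
  exact hf.mul (hg.inv h)

theorem tCayH : S_CayH := by
  intro n
  have hHo : IsOpen (HH n) := by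
    have : HH n = ⋂ i, {z : Cn n | 0 < (z i).im} := by
      ext z; simp [HH]
    rw [this]
    exact isOpen_iInter_of_finite fun i => isOpen_lt (by fun_prop) (by fun_prop)
  have hball : ∀ w : Cn n, w ∈ ball (0 : Cn n) 1 ↔ ∀ i, ‖w i‖ < 1 := by
    intro w
    rw [mem_ball_zero_iff, pi_norm_lt_iff one_pos]
  refine ⟨fun z i => (z i - Complex.I) / (z i + Complex.I),
    fun w i => Complex.I * (1 + w i) / (1 - w i), ?_, ?_, ?_, ?_, ?_, ?_⟩
  · rw [holOn_iff hHo, differentiableOn_pi]
    intro i
    exact dDiv (f := fun z : Cn n => z i - Complex.I) (g := fun z : Cn n => z i + Complex.I)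
      (by fun_prop) (by fun_prop) (fun z hz => cay_ne (hz i))
  · rw [holOn_iff isOpen_ball, differentiableOn_pi]
    intro i
    exact dDiv (f := fun w : Cn n => Complex.I * (1 + w i)) (g := fun w : Cn n => 1 - w i)
      (by fun_prop) (by fun_prop) (fun w hw => cay_ne' ((hball w).mp hw i))
  · intro z hz
    rw [hball]
    exact fun i => cay_lt (hz i)
  · intro w hw i
    exact cay_im ((hball w).mp hw i)
  · intro z hz
    funext i
    have h1 := cay_ne (hz i)
    have h2 : (z i + Complex.I) - (z i - Complex.I) ≠ 0 := by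
      have : (z i + Complex.I) - (z i - Complex.I) = 2 * Complex.I := by ring
      rw [this]
      simp
    have h3 : 1 - (z i - Complex.I) / (z i + Complex.I) ≠ 0 := by
      rw [one_sub_div h1]
      exact div_ne_zero h2 h1
    change Complex.I * (1 + (z i - Complex.I) / (z i + Complex.I)) /
      (1 - (z i - Complex.I) / (z i + Complex.I)) = z i
    rw [div_eq_iff h3]
    field_simp
    ring_nf
  · intro w hw
    funext i
    have h1 := cay_ne' ((hball w).mp hw i)
    have h3 : Complex.I * (1 + w i) / (1 - w i) + Complex.I ≠ 0 :=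
      cay_ne (cay_im ((hball w).mp hw i))
    change (Complex.I * (1 + w i) / (1 - w i) - Complex.I) /
      (Complex.I * (1 + w i) / (1 - w i) + Complex.I) = w i
    rw [div_eq_iff h3]
    field_simp
    ring_nf

end KP
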