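import Pool.Agent.Lib.KP.SpecT

/-!
# KP, block T: the Cayley transform of the Siegel domain
-/

set_option autoImplicit false

open Set Filter Topology Metric

namespace KP

private theorem cs_nsq_two (w : Cn 2) : nsq w = Complex.normSq (w 0) + Complex.normSq (w 1) := by
  simp [nsq, Fin.sum_univ_two]

private theorem cs_add_I {z : ℂ} (h : 0 < z.im) : z + Complex.I ≠ 0 := by
  intro h0
  have := congrArg Complex.im h0
  simp at this
  linarith

private theorem cs_im_pos {z : Cn 2} (hz : z ∈ Sg) : 0 < (z 1).im := by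
  have h : ‖z 0‖ ^ 2 < (z 1).im := hz
  nlinarith [sq_nonneg ‖z 0‖]

private theorem cs_one_sub {w : Cn 2} (hw : w ∈ B2) : 1 - w 1 ≠ 0 := by
  intro h0
  have h1 : w 1 = 1 := (sub_eq_zero.mp h0).symm
  have h : nsq w < 1 := hw
  rw [cs_nsq_two, h1] at h
  simp at h
  have := Complex.normSq_nonneg (w 0)
  linarith

private theorem cs_isOpen_Sg : IsOpen Sg := by
  have h : Sg = {z : Cn 2 | ‖z 0‖ ^ 2 < (z 1).im} := rfl
  rw [h]
  apply isOpen_lt
  · fun_prop
  · exact Complex.continuous_im.comp (continuous_apply 1)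

private theorem cs_isOpen_B2 : IsOpen B2 := by
  have h : B2 = {z : Cn 2 | Complex.normSq (z 0) + Complex.normSq (z 1) < 1} := by
    ext z
    show nsq z < 1 ↔ _
    rw [cs_nsq_two]
    rfl
  rw [h]
  apply isOpen_lt
  · exact (Complex.continuous_normSq.comp (continuous_apply 0)).add
      (Complex.continuous_normSq.comp (continuous_apply 1))
  · exact continuous_const

private theorem cs_div {f g : Cn 2 → ℂ} {U : Set (Cn 2)} (hf : DifferentiableOn ℂ f U)
    (hg : DifferentiableOn ℂ g U) (h : ∀ z ∈ U, g z ≠ 0) :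
    DifferentiableOn ℂ (fun z => f z / g z) U := by
  have h1 : DifferentiableOn ℂ (fun z => f z * (g z)⁻¹) U := hf.mul (hg.inv h)
  simpa only [div_eq_mul_inv] using h1

private noncomputable def csF (z : Cn 2) : Cn 2 :=
  ![2 * z 0 / (z 1 + Complex.I), (z 1 - Complex.I) / (z 1 + Complex.I)]

private noncomputable def csG (w : Cn 2) : Cn 2 :=
  ![Complex.I * w 0 / (1 - w 1), Complex.I * (1 + w 1) / (1 - w 1)]

private theorem cs_dF : DifferentiableOn ℂ csF Sg := by
  rw [differentiableOn_pi]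
  intro i
  have h0 : DifferentiableOn ℂ (fun z : Cn 2 => z 0) Sg :=
    (differentiable_apply (𝕜 := ℂ) (0 : Fin 2)).differentiableOn
  have h1 : DifferentiableOn ℂ (fun z : Cn 2 => z 1) Sg :=
    (differentiable_apply (𝕜 := ℂ) (1 : Fin 2)).differentiableOn
  have hne : ∀ z ∈ Sg, z 1 + Complex.I ≠ 0 := fun z hz => cs_add_I (cs_im_pos hz)
  fin_cases i
  · exact cs_div (h0.const_mul 2) (h1.add_const _) hne
  · exact cs_div (h1.sub_const _) (h1.add_const _) hne

private theorem cs_dG : DifferentiableOn ℂ csG B2 := by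
  rw [differentiableOn_pi]
  intro i
  have h0 : DifferentiableOn ℂ (fun z : Cn 2 => z 0) B2 :=
    (differentiable_apply (𝕜 := ℂ) (0 : Fin 2)).differentiableOn
  have h1 : DifferentiableOn ℂ (fun z : Cn 2 => z 1) B2 :=
    (differentiable_apply (𝕜 := ℂ) (1 : Fin 2)).differentiableOn
  have hne : ∀ z ∈ B2, 1 - z 1 ≠ 0 := fun z hz => cs_one_sub hz
  fin_cases i
  · exact cs_div (h0.const_mul Complex.I) (h1.const_sub 1) hne
  · exact cs_div ((h1.const_add 1).const_mul Complex.I) (h1.const_sub 1) hne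

private theorem cs_mapF : MapsTo csF Sg B2 := by
  intro z hz
  have hI := cs_add_I (cs_im_pos hz)
  have h : ‖z 0‖ ^ 2 < (z 1).im := hz
  show nsq (csF z) < 1
  rw [cs_nsq_two]
  have e0 : csF z 0 = 2 * z 0 / (z 1 + Complex.I) := rfl
  have e1 : csF z 1 = (z 1 - Complex.I) / (z 1 + Complex.I) := rfl
  rw [e0, e1, Complex.normSq_div, Complex.normSq_div, ← add_div]
  have hp : 0 < Complex.normSq (z 1 + Complex.I) := Complex.normSq_pos.mpr hI
  rw [div_lt_one hp]
  have h2 : Complex.normSq (z 0) = ‖z 0‖ ^ 2 := Complex.normSq_eq_norm_sq _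
  rw [Complex.normSq_mul, h2]
  simp only [Complex.normSq_apply, Complex.add_re, Complex.add_im, Complex.sub_re, Complex.sub_im,
    Complex.I_re, Complex.I_im, Complex.re_ofNat, Complex.im_ofNat]
  nlinarith

private theorem cs_mapG : MapsTo csG B2 Sg := by
  intro w hw
  have hI := cs_one_sub hw
  have h : nsq w < 1 := hw
  rw [cs_nsq_two] at h
  have hp : 0 < Complex.normSq (1 - w 1) := Complex.normSq_pos.mpr hI
  show ‖csG w 0‖ ^ 2 < (csG w 1).im
  have e0 : csG w 0 = Complex.I * w 0 / (1 - w 1) := rfl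
  have e1 : csG w 1 = Complex.I * (1 + w 1) / (1 - w 1) := rfl
  rw [e0, e1, ← Complex.normSq_eq_norm_sq, Complex.normSq_div, Complex.normSq_mul,
    Complex.normSq_I, one_mul]
  have him : (Complex.I * (1 + w 1) / (1 - w 1)).im =
      (1 - Complex.normSq (w 1)) / Complex.normSq (1 - w 1) := by
    rw [Complex.div_im]
    have hn := hp.ne'
    field_simp
    simp only [Complex.normSq_apply, Complex.mul_re, Complex.mul_im, Complex.add_re,
      Complex.add_im, Complex.sub_re, Complex.sub_im, Complex.I_re, Complex.I_im, Complex.one_re,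
      Complex.one_im]
    ring
  rw [him]
  exact (div_lt_div_iff_of_pos_right hp).mpr (by linarith)

private theorem cs_GF {z : Cn 2} (hz : z ∈ Sg) : csG (csF z) = z := by
  have hI := cs_add_I (cs_im_pos hz)
  have hII : (2 : ℂ) * Complex.I ≠ 0 := mul_ne_zero two_ne_zero Complex.I_ne_zero
  have e0 : csF z 0 = 2 * z 0 / (z 1 + Complex.I) := rfl
  have e1 : csF z 1 = (z 1 - Complex.I) / (z 1 + Complex.I) := rfl
  have h1 : 1 - csF z 1 = 2 * Complex.I / (z 1 + Complex.I) := by
    rw [e1]
    field_simp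
    ring
  have h2 : 1 + csF z 1 = 2 * z 1 / (z 1 + Complex.I) := by
    rw [e1]
    field_simp
    ring
  funext i
  fin_cases i
  · show Complex.I * csF z 0 / (1 - csF z 1) = z 0
    rw [h1, e0]
    field_simp
  · show Complex.I * (1 + csF z 1) / (1 - csF z 1) = z 1
    rw [h1, h2]
    field_simp

private theorem cs_FG {w : Cn 2} (hw : w ∈ B2) : csF (csG w) = w := by
  have hI := cs_one_sub hw
  have hII : (2 : ℂ) * Complex.I ≠ 0 := mul_ne_zero two_ne_zero Complex.I_ne_zero
  have e0 : csG w 0 = Complex.I * w 0 / (1 - w 1) := rfl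
  have e1 : csG w 1 = Complex.I * (1 + w 1) / (1 - w 1) := rfl
  have h1 : csG w 1 + Complex.I = 2 * Complex.I / (1 - w 1) := by
    rw [e1]
    field_simp
    ring
  have h2 : csG w 1 - Complex.I = 2 * Complex.I * w 1 / (1 - w 1) := by
    rw [e1]
    field_simp
    ring
  funext i
  fin_cases i
  · show 2 * csG w 0 / (csG w 1 + Complex.I) = w 0
    rw [h1, e0]
    field_simp
  · show (csG w 1 - Complex.I) / (csG w 1 + Complex.I) = w 1
    rw [h1, h2]
    field_simp

theorem tCayS : S_CayS :=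
  ⟨csF, csG, (holOn_iff cs_isOpen_Sg).mpr cs_dF, (holOn_iff cs_isOpen_B2).mpr cs_dG, cs_mapF,
    cs_mapG, fun _ hx => cs_GF hx, fun _ hy => cs_FG hy⟩

end KP
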