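import Pool.Agent.Lib.KP.SpecT

/-!
# KP (MP_64edc4_ag), block T, End1: the conclusion in dimension one
-/

set_option autoImplicit false

open Set Filter Topology Metric

namespace KP

theorem tEnd1 (hScA1 : S_ScA1) (hScale : S_Scale) (hCayH : S_CayH) (hBsdP : S_BsdP)
    (hBihT : S_BihT) : S_End1 := by
  intro N I U G K hU hC c R hB hA
  have hB' := hB
  obtain ⟨-, ρ, -, -, -, hR, -⟩ := hB'
  obtain ⟨A, B, hS⟩ := hScA1 R hR hA
  exact ⟨ball (0 : Cn 1) 1, hBsdP 1, hBihT _ _ _ _ _ _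
    (hScale N 1 I U G K hU hC c R (HH 1) _ A B hB hS) (hCayH 1)⟩

end KP
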