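import Pool.Agent.Lib.KP.SpecT

set_option autoImplicit false

open Set Filter Topology Metric

namespace KP

theorem tEnd2 (h1 : S_ScA2) (h2 : S_ScD) (h3 : S_Scale) (h4 : S_CayH) (h5 : S_CayS)
    (h6 : S_BsdP) (h7 : S_BsdS) (h8 : S_BihT) : S_End2 := by
  intro N I U G K hU hG c R hBd hT
  obtain ⟨ρ, _, _, _, hR, _⟩ := hBd.rad
  rcases hT with hA | hD
  · obtain ⟨A, B, sc⟩ := h1 R hR hA
    exact ⟨B2, h7, h8 _ _ _ _ _ _ (h3 N 2 I U G K hU hG c R Sg _ A B hBd sc) h5⟩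
  · obtain ⟨A, B, sc⟩ := h2 R hR hD
    exact ⟨ball (0 : Cn 2) 1, h6 2,
      h8 _ _ _ _ _ _ (h3 N 2 I U G K hU hG c R (HH 2) _ A B hBd sc) (h4 2)⟩

end KP
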