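import Pool.Agent.Lib.KP.SpecT

/-!
# KP (MP_64edc4_ag), block T, EndB: no strictly pseudoconcave boundary points
-/

set_option autoImplicit false

open Set Filter Topology Metric

namespace KP

namespace EndBAux

/-- the cone region -/
def RP (r : ℝ) : Set (Cn 2) := {z | ‖z‖ < r ^ 2 / 4 ∧ 1 / 4 * ‖z 1‖ < (z 1).im}

theorem isOpen_RP (r : ℝ) : IsOpen (RP r) := by
  have h1 : IsOpen {z : Cn 2 | ‖z‖ < r ^ 2 / 4} := isOpen_lt continuous_norm continuous_const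
  have h2 : IsOpen {z : Cn 2 | 1 / 4 * ‖z 1‖ < (z 1).im} :=
    isOpen_lt (by fun_prop) (Complex.continuous_im.comp (continuous_apply 1))
  exact h1.inter h2

theorem mem_RP {r δ : ℝ} (hδ : 0 < δ) (hδr : δ < r ^ 2 / 4) :
    (![0, Complex.I * δ] : Cn 2) ∈ RP r ∧ ‖(![0, Complex.I * δ] : Cn 2)‖ ≤ δ := by
  have h1 : ‖(![0, Complex.I * δ] : Cn 2)‖ ≤ δ := by
    rw [pi_norm_le_iff_of_nonneg hδ.le, Fin.forall_fin_two]
    constructor
    · show ‖(0 : ℂ)‖ ≤ δ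
      rw [norm_zero]
      exact hδ.le
    · show ‖Complex.I * δ‖ ≤ δ
      rw [norm_mul, Complex.norm_I, one_mul, Complex.norm_real, Real.norm_of_nonneg hδ.le]
  refine ⟨⟨h1.trans_lt hδr, ?_⟩, h1⟩
  show 1 / 4 * ‖Complex.I * δ‖ < (Complex.I * δ).im
  rw [norm_mul, Complex.norm_I, one_mul, Complex.norm_real, Real.norm_of_nonneg hδ.le,
    Complex.im_mul_ofReal, Complex.I_im]
  linarith

end EndBAux

open EndBAux

theorem tEndB (h1 : S_Hart) (h2 : S_LemH) : S_EndB := by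
  intro N I U G K hU hG c R h0W h0U hRo hRU hT
  obtain ⟨ρ1, hρ1, hT1⟩ := hT (1 / 4) (by norm_num)
  set r : ℝ := min ρ1 1 / 2 with hrd
  have hr0 : 0 < r := half_pos (lt_min hρ1 one_pos)
  have hr1 : r < ρ1 := by
    have := min_le_left ρ1 1
    rw [hrd]; linarith
  have hr2 : r ≤ 1 / 2 := by
    have := min_le_right ρ1 1
    rw [hrd]; linarith
  have hr3 : r ^ 2 / 4 < r := by nlinarith
  have hr4 : 0 < r ^ 2 / 4 := by positivity
  have hreg : ∀ z : Cn 2, ‖z 0‖ ≤ r → ‖z 1‖ < r ^ 2 / 4 →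
      1 / 4 * ‖z 1‖ - 3 / 4 * ‖z 0‖ ^ 2 < (z 1).im → z ∈ R := by
    intro z hz0 hz1 hz
    apply hT1 z
    · rw [mem_ball_zero_iff, pi_norm_lt_iff hρ1, Fin.forall_fin_two]
      exact ⟨hz0.trans_lt hr1, hz1.trans (hr3.trans hr1)⟩
    · have h3 : (1 - 1 / 4 : ℝ) = 3 / 4 := by norm_num
      rw [h3]
      exact hz
  have hRPR : RP r ⊆ R := by
    intro z hz
    obtain ⟨hz1, hz2⟩ := hz
    have h3 := (norm_le_pi_norm z 0)
    have h4 := (norm_le_pi_norm z 1)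
    apply hreg z
    · linarith
    · linarith
    · have h5 := sq_nonneg ‖z 0‖
      linarith
  have hcl : (0 : Cn 2) ∈ closure (RP r) := by
    rw [Metric.mem_closure_iff]
    intro e he
    set δ : ℝ := min e (r ^ 2 / 4) / 2 with hδ
    have hδ0 : 0 < δ := half_pos (lt_min he hr4)
    have hδ1 : δ < e := by
      have := min_le_left e (r ^ 2 / 4)
      have h5 : 0 < min e (r ^ 2 / 4) := lt_min he hr4
      rw [hδ]; linarith
    have hδ2 : δ < r ^ 2 / 4 := by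
      have := min_le_right e (r ^ 2 / 4)
      have h5 : 0 < min e (r ^ 2 / 4) := lt_min he hr4
      rw [hδ]; linarith
    obtain ⟨h3, h4⟩ := mem_RP hδ0 hδ2
    refine ⟨_, h3, ?_⟩
    rw [dist_zero_left]
    exact h4.trans_lt hδ1
  have hRne : ∃ w, w ∈ R := by
    have h3 : (0 : ℝ) < r ^ 2 / 4 / 2 := by positivity
    have h4 : r ^ 2 / 4 / 2 < r ^ 2 / 4 := by linarith
    exact ⟨_, hRPR (mem_RP h3 h4).1⟩
  refine h2 N 2 I U G K hU hG c R (RP r) (r ^ 2 / 4) h0W h0U hRo (isOpen_RP r) hRU hRPR hcl hr4 ?_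
  intro M f hf hfM
  have hM : 0 ≤ M := by
    obtain ⟨w, hw⟩ := hRne
    exact (norm_nonneg _).trans (hfM w hw)
  have hex : ∀ i : Fin N, ∃ g : Cn 2 → ℂ,
      DifferentiableOn ℂ g {z | ‖z 0‖ < r ∧ ‖z 1‖ < r ^ 2 / 4} ∧
      (∀ z : Cn 2, ‖z 0‖ < r → ‖z 1‖ < r ^ 2 / 4 → ‖g z‖ ≤ M) ∧
      ∀ z : Cn 2, ‖z 0‖ < r → ‖z 1‖ < r ^ 2 / 4 → 1 / 4 * ‖z 1‖ < (z 1).im → g z = f z i := by
    intro i
    exact h1 R r hRo hr0 hreg M (fun w => f w i) ((differentiableOn_pi.1 hf) i)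
      (fun w hw => (norm_le_pi_norm (f w) i).trans (hfM w hw))
  choose g hg1 hg2 hg3 using hex
  have hball : ∀ z ∈ ball (0 : Cn 2) (r ^ 2 / 4), ‖z 0‖ < r ∧ ‖z 1‖ < r ^ 2 / 4 := by
    intro z hz
    rw [mem_ball_zero_iff] at hz
    exact ⟨((norm_le_pi_norm z 0).trans_lt hz).trans hr3, (norm_le_pi_norm z 1).trans_lt hz⟩
  refine ⟨fun w i => g i w, ?_, ?_, ?_⟩
  · rw [differentiableOn_pi]
    intro i
    exact (hg1 i).mono hball
  · intro w hw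
    obtain ⟨h3, h4⟩ := hball w hw
    rw [pi_norm_le_iff_of_nonneg hM]
    intro i
    exact hg2 i w h3 h4
  · intro w hw
    obtain ⟨h3, h4⟩ := hball w hw.2
    ext i
    exact hg3 i w h3 h4 hw.1.2

end KP
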