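import Pool.Agent.Lib.KP.SpecT

/-!
# KP (MP_64edc4_ag), block T, HP: holomorphic functions with nonnegative real part
-/

set_option autoImplicit false

open Set Filter Topology Metric

namespace KP

private theorem hp_strict (k : ℂ → ℂ) (ρ : ℝ) (hρ : 0 < ρ) (hk : DifferentiableOn ℂ k (ball 0 ρ))
    (hpos : ∀ t ∈ ball (0 : ℂ) ρ, 0 < (k t).re) (t : ℂ) (ht : t ∈ ball (0 : ℂ) ρ) :
    ‖k t‖ * (ρ - ‖t‖) ≤ ‖k 0‖ * (ρ + ‖t‖) := by
  have h0 : (0 : ℂ) ∈ ball (0 : ℂ) ρ := mem_ball_self hρ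
  obtain ⟨a, ha⟩ : ∃ a, a = k 0 := ⟨_, rfl⟩
  have ha0 : 0 < a.re := ha ▸ hpos 0 h0
  have hne : ∀ s ∈ ball (0 : ℂ) ρ, k s + (starRingEnd ℂ) a ≠ 0 := by
    intro s hs h1
    have h2 := congrArg Complex.re h1
    rw [Complex.add_re, Complex.conj_re, Complex.zero_re] at h2
    have := hpos s hs
    linarith
  have hlt : ∀ s ∈ ball (0 : ℂ) ρ, ‖(k s - a) / (k s + (starRingEnd ℂ) a)‖ ≤ 1 := by
    intro s hs
    rw [norm_div, div_le_one (norm_pos_iff.2 (hne s hs))]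
    refine le_of_sq_le_sq ?_ (norm_nonneg _)
    rw [← Complex.normSq_eq_norm_sq, ← Complex.normSq_eq_norm_sq, Complex.normSq_apply,
      Complex.normSq_apply]
    simp only [Complex.sub_re, Complex.sub_im, Complex.add_re, Complex.add_im, Complex.conj_re,
      Complex.conj_im]
    have h1 := mul_pos (hpos s hs) ha0
    nlinarith
  have hd : DifferentiableOn ℂ (fun s => (k s - a) / (k s + (starRingEnd ℂ) a)) (ball 0 ρ) :=
    (hk.sub_const _).div (hk.add_const _) hne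
  have hz : (k 0 - a) / (k 0 + (starRingEnd ℂ) a) = 0 := by rw [← ha, sub_self, zero_div]
  have h1 := Complex.dist_le_div_mul_dist_of_mapsTo_ball (R₂ := 1) hd (by
    intro s hs
    rw [mem_closedBall, dist_eq_norm]
    beta_reduce
    rw [hz, sub_zero]
    exact hlt s hs) ht
  beta_reduce at h1
  rw [hz, dist_zero_right, dist_zero_right] at h1
  obtain ⟨h, hh⟩ : ∃ h, h = (k t - a) / (k t + (starRingEnd ℂ) a) := ⟨_, rfl⟩
  rw [← hh] at h1
  have e1 : k t * (1 - h) = a + (starRingEnd ℂ) a * h := by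
    have h2 : h * (k t + (starRingEnd ℂ) a) = k t - a := by
      rw [hh, div_mul_cancel₀ _ (hne t ht)]
    linear_combination (-1 : ℂ) * h2
  have h2 : ‖k t‖ * (1 - ‖h‖) ≤ ‖a‖ * (1 + ‖h‖) := by
    have h3 : ‖k t‖ * (1 - ‖h‖) ≤ ‖k t * (1 - h)‖ := by
      rw [norm_mul]
      refine mul_le_mul_of_nonneg_left ?_ (norm_nonneg _)
      have := norm_sub_norm_le (1 : ℂ) h
      rwa [norm_one] at this
    have h4 : ‖a + (starRingEnd ℂ) a * h‖ ≤ ‖a‖ * (1 + ‖h‖) := by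
      refine (norm_add_le _ _).trans (le_of_eq ?_)
      rw [norm_mul, RCLike.norm_conj]
      ring
    rw [e1] at h3
    exact h3.trans h4
  have h5 : ‖h‖ * ρ ≤ ‖t‖ := by
    have h6 := mul_le_mul_of_nonneg_right h1 hρ.le
    refine h6.trans (le_of_eq ?_)
    field_simp
  rw [← ha]
  have h6 : ‖k t‖ * (ρ - ‖h‖ * ρ) ≤ ‖a‖ * (ρ + ‖h‖ * ρ) := by nlinarith
  have h7 : ‖k t‖ * (ρ - ‖t‖) ≤ ‖k t‖ * (ρ - ‖h‖ * ρ) :=
    mul_le_mul_of_nonneg_left (by linarith) (norm_nonneg _)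
  have h8 : ‖a‖ * (ρ + ‖h‖ * ρ) ≤ ‖a‖ * (ρ + ‖t‖) :=
    mul_le_mul_of_nonneg_left (by linarith) (norm_nonneg _)
  exact h7.trans (h6.trans h8)

theorem tHP : S_HP := by
  intro k ρ hρ hk hpos t ht
  refine le_of_forall_pos_le_add fun δ hδ => ?_
  obtain ⟨ε, hε⟩ : ∃ ε, ε = δ / (2 * ρ) := ⟨_, rfl⟩
  have hε0 : 0 < ε := by rw [hε]; positivity
  have he : ‖(ε : ℂ)‖ = ε := by rw [Complex.norm_real, Real.norm_eq_abs, abs_of_pos hε0]
  have h1 := hp_strict (fun s => k s + ε) ρ hρ (hk.add_const _) (fun s hs => by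
    rw [Complex.add_re, Complex.ofReal_re]
    have := hpos s hs
    linarith) t ht
  have ht' : ‖t‖ < ρ := by rwa [mem_ball_zero_iff] at ht
  have h2 : ‖k t‖ - ε ≤ ‖k t + ε‖ := by
    have := norm_sub_le (k t + ε) (ε : ℂ)
    rw [add_sub_cancel_right, he] at this
    linarith
  have h3 : ‖k 0 + ε‖ ≤ ‖k 0‖ + ε := by
    have := norm_add_le (k 0) (ε : ℂ)
    rwa [he] at this
  have h4 : (‖k t‖ - ε) * (ρ - ‖t‖) ≤ (‖k 0‖ + ε) * (ρ + ‖t‖) :=
    (mul_le_mul_of_nonneg_right h2 (by linarith)).trans (h1.trans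
      (mul_le_mul_of_nonneg_right h3 (by positivity)))
  have h5 : ε * (2 * ρ) = δ := by rw [hε]; field_simp
  nlinarith

end KP
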