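import Pool.Agent.Lib.KP.SpecT

/-!
# KP (MP_64edc4_ag), block T, Hart: extension by the Cauchy integral
-/

set_option autoImplicit false

open Set Filter Topology Metric

namespace KP

namespace HartAux

/-- the domain of the extension -/
def Dm (r : ℝ) : Set (Cn 2) := {z | ‖z 0‖ < r ∧ ‖z 1‖ < r ^ 2 / 4}

/-- the cone -/
def Co (r : ℝ) : Set (Cn 2) := {z | (‖z 0‖ < r ∧ ‖z 1‖ < r ^ 2 / 4) ∧ 1 / 4 * ‖z 1‖ < (z 1).im}

theorem isOpen_Dm (r : ℝ) : IsOpen (Dm r) := by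
  have h1 : IsOpen {z : Cn 2 | ‖z 0‖ < r} := isOpen_lt (by fun_prop) continuous_const
  have h2 : IsOpen {z : Cn 2 | ‖z 1‖ < r ^ 2 / 4} := isOpen_lt (by fun_prop) continuous_const
  exact h1.inter h2

theorem isOpen_Co (r : ℝ) : IsOpen (Co r) := by
  have h2 : IsOpen {z : Cn 2 | 1 / 4 * ‖z 1‖ < (z 1).im} :=
    isOpen_lt (by fun_prop) (Complex.continuous_im.comp (continuous_apply 1))
  exact (isOpen_Dm r).inter h2

theorem convex_Dm (r : ℝ) : Convex ℝ (Dm r) := by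
  have h0 : Convex ℝ {z : Cn 2 | ‖z 0‖ < r} := by
    have h1 := (convex_ball (0 : ℂ) r).linear_preimage (LinearMap.proj 0 : Cn 2 →ₗ[ℝ] ℂ)
    have h2 : {z : Cn 2 | ‖z 0‖ < r} =
        (LinearMap.proj 0 : Cn 2 →ₗ[ℝ] ℂ) ⁻¹' ball (0 : ℂ) r := by
      ext z
      simp
    rw [h2]
    exact h1
  have h1 : Convex ℝ {z : Cn 2 | ‖z 1‖ < r ^ 2 / 4} := by
    have h1 := (convex_ball (0 : ℂ) (r ^ 2 / 4)).linear_preimage
      (LinearMap.proj 1 : Cn 2 →ₗ[ℝ] ℂ)
    have h2 : {z : Cn 2 | ‖z 1‖ < r ^ 2 / 4} =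
        (LinearMap.proj 1 : Cn 2 →ₗ[ℝ] ℂ) ⁻¹' ball (0 : ℂ) (r ^ 2 / 4) := by
      ext z
      simp
    rw [h2]
    exact h1
  exact h0.inter h1

/-- the integrand as a function of three variables -/
noncomputable def FF (h : Cn 2 → ℂ) (u : Cn 3) : ℂ := (u 2 - u 0)⁻¹ * h ![u 2, u 1]

/-- the Cauchy integral -/
noncomputable def CI (r : ℝ) (h : Cn 2 → ℂ) (z : Cn 2) : ℂ :=
  (2 * Real.pi * Complex.I : ℂ)⁻¹ • ∮ s in C(0, r), (s - z 0)⁻¹ * h ![s, z 1]

theorem continuous_v21 : Continuous (fun u : Cn 3 => (![u 2, u 1] : Cn 2)) := by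
  refine continuous_pi fun i => ?_
  fin_cases i
  · exact continuous_apply 2
  · exact continuous_apply 1

theorem differentiable_v21 : Differentiable ℂ (fun u : Cn 3 => (![u 2, u 1] : Cn 2)) := by
  rw [differentiable_pi]
  intro i
  fin_cases i
  · show Differentiable ℂ (fun u : Cn 3 => u 2)
    fun_prop
  · show Differentiable ℂ (fun u : Cn 3 => u 1)
    fun_prop

theorem dif_FF {R : Set (Cn 2)} {h : Cn 2 → ℂ} (hh : DifferentiableOn ℂ h R) :
    DifferentiableOn ℂ (FF h) {u : Cn 3 | ![u 2, u 1] ∈ R ∧ u 2 ≠ u 0} := by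
  have h1 : DifferentiableOn ℂ (fun u : Cn 3 => (u 2 - u 0)⁻¹)
      {u : Cn 3 | ![u 2, u 1] ∈ R ∧ u 2 ≠ u 0} := by
    apply DifferentiableOn.inv
    · apply Differentiable.differentiableOn
      fun_prop
    · intro u hu
      exact sub_ne_zero.2 hu.2
  exact h1.mul (hh.comp differentiable_v21.differentiableOn (fun u hu => hu.1))

theorem isOpen_U {R : Set (Cn 2)} (hR : IsOpen R) :
    IsOpen {u : Cn 3 | ![u 2, u 1] ∈ R ∧ u 2 ≠ u 0} := by
  have h1 : IsOpen {u : Cn 3 | ![u 2, u 1] ∈ R} := hR.preimage continuous_v21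
  have h2 : IsOpen {u : Cn 3 | u 2 ≠ u 0} :=
    isOpen_ne_fun (continuous_apply 2) (continuous_apply 0)
  exact h1.inter h2

theorem dif_CI {R : Set (Cn 2)} {r : ℝ} (hR : IsOpen R) (hr : 0 < r)
    (hreg : ∀ z : Cn 2, ‖z 0‖ ≤ r → ‖z 1‖ < r ^ 2 / 4 →
      1 / 4 * ‖z 1‖ - 3 / 4 * ‖z 0‖ ^ 2 < (z 1).im → z ∈ R) {h : Cn 2 → ℂ}
    (hh : DifferentiableOn ℂ h R) : DifferentiableOn ℂ (CI r h) (Dm r) := by
  intro z hz
  apply DifferentiableAt.differentiableWithinAt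
  have h1 : DifferentiableAt ℂ (fun u : Cn 3 => ∮ s in C(0, r), (1 : ℂ) • FF h (u + ![0, 0, s]))
      (![z 0, z 1, 0] : Cn 3) := by
    refine Pool.Agent.Lib.Osgood.differentiableAt_circleIntegral (isOpen_U hR) (dif_FF hh) hr.le
      (k := fun _ => 1) (c := fun s => (![0, 0, s] : Cn 3)) continuousOn_const ?_ ?_
    · apply Continuous.continuousOn
      refine continuous_pi fun i => ?_
      fin_cases i
      · exact continuous_const
      · exact continuous_const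
      · exact continuous_id
    · intro s hs
      rw [mem_sphere_iff_norm, sub_zero] at hs
      have e0 : (![z 0, z 1, 0] + ![0, 0, s] : Cn 3) 0 = z 0 := by
        show z 0 + 0 = z 0
        rw [add_zero]
      have e1 : (![z 0, z 1, 0] + ![0, 0, s] : Cn 3) 1 = z 1 := by
        show z 1 + 0 = z 1
        rw [add_zero]
      have e2 : (![z 0, z 1, 0] + ![0, 0, s] : Cn 3) 2 = s := by
        show (0 : ℂ) + s = s
        rw [zero_add]
      refine ⟨?_, ?_⟩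
      · rw [e1, e2]
        apply hreg
        · show ‖s‖ ≤ r
          exact hs.le
        · exact hz.2
        · show 1 / 4 * ‖z 1‖ - 3 / 4 * ‖s‖ ^ 2 < (z 1).im
          rw [hs]
          have h2 := hz.2
          have h3 := (abs_le.1 (Complex.abs_im_le_norm (z 1))).1
          nlinarith
      · rw [e0, e2]
        rintro rfl
        exact absurd hs hz.1.ne
  have h2 : DifferentiableAt ℂ (fun z : Cn 2 => (![z 0, z 1, 0] : Cn 3)) z := by
    rw [differentiableAt_pi]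
    intro i
    fin_cases i
    · show DifferentiableAt ℂ (fun z : Cn 2 => z 0) z
      fun_prop
    · show DifferentiableAt ℂ (fun z : Cn 2 => z 1) z
      fun_prop
    · show DifferentiableAt ℂ (fun z : Cn 2 => (0 : ℂ)) z
      fun_prop
  have h3 := (h1.comp z h2).const_smul (2 * Real.pi * Complex.I : ℂ)⁻¹
  refine h3.congr_of_eventuallyEq (Eventually.of_forall fun w => ?_)
  show CI r h w = (2 * Real.pi * Complex.I : ℂ)⁻¹ •
    ∮ s in C(0, r), (1 : ℂ) • FF h ((![w 0, w 1, 0] : Cn 3) + ![0, 0, s])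
  unfold CI
  congr 2
  funext s
  have e0 : (![w 0, w 1, 0] + ![0, 0, s] : Cn 3) 0 = w 0 := by
    show w 0 + 0 = w 0
    rw [add_zero]
  have e1 : (![w 0, w 1, 0] + ![0, 0, s] : Cn 3) 1 = w 1 := by
    show w 1 + 0 = w 1
    rw [add_zero]
  have e2 : (![w 0, w 1, 0] + ![0, 0, s] : Cn 3) 2 = s := by
    show (0 : ℂ) + s = s
    rw [zero_add]
  rw [one_smul]
  unfold FF
  rw [e0, e1, e2]

theorem CI_eq {R : Set (Cn 2)} {r : ℝ}
    (hreg : ∀ z : Cn 2, ‖z 0‖ ≤ r → ‖z 1‖ < r ^ 2 / 4 →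
      1 / 4 * ‖z 1‖ - 3 / 4 * ‖z 0‖ ^ 2 < (z 1).im → z ∈ R) {h : Cn 2 → ℂ}
    (hh : DifferentiableOn ℂ h R) {z : Cn 2} (hz : z ∈ Co r) : CI r h z = h z := by
  obtain ⟨⟨hz0, hz1⟩, hz2⟩ := hz
  have hmem : ∀ s : ℂ, ‖s‖ ≤ r → (![s, z 1] : Cn 2) ∈ R := by
    intro s hs
    apply hreg
    · exact hs
    · exact hz1
    · show 1 / 4 * ‖z 1‖ - 3 / 4 * ‖s‖ ^ 2 < (z 1).im
      have := sq_nonneg ‖s‖
      linarith
  have hd : DifferentiableOn ℂ (fun s : ℂ => h ![s, z 1]) (closedBall 0 r) := by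
    refine hh.comp (t := R) ?_ (fun s hs => hmem s (by simpa using hs))
    apply Differentiable.differentiableOn
    rw [differentiable_pi]
    intro i
    fin_cases i
    · show Differentiable ℂ (fun s : ℂ => s)
      fun_prop
    · show Differentiable ℂ (fun s : ℂ => z 1)
      fun_prop
  have h1 := (DifferentiableOn.diffContOnCl_ball hd subset_rfl).two_pi_i_inv_smul_circleIntegral_sub_inv_smul
    (w := z 0) (by simpa using hz0)
  have h2 : (![z 0, z 1] : Cn 2) = z := by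
    ext i
    fin_cases i
    · rfl
    · rfl
  rw [h2] at h1
  rw [← h1]
  rfl

theorem CI_le {R : Set (Cn 2)} {r : ℝ} (hr : 0 < r)
    (hreg : ∀ z : Cn 2, ‖z 0‖ ≤ r → ‖z 1‖ < r ^ 2 / 4 →
      1 / 4 * ‖z 1‖ - 3 / 4 * ‖z 0‖ ^ 2 < (z 1).im → z ∈ R) {h : Cn 2 → ℂ} {M : ℝ}
    (hM : ∀ w ∈ R, ‖h w‖ ≤ M) {z : Cn 2} (hz : z ∈ Dm r) :
    ‖CI r h z‖ ≤ r * ((r - ‖z 0‖)⁻¹ * M) := by
  unfold CI
  apply circleIntegral.norm_two_pi_i_inv_smul_integral_le_of_norm_le_const hr.le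
  intro s hs
  rw [mem_sphere_iff_norm, sub_zero] at hs
  have hsR : (![s, z 1] : Cn 2) ∈ R := by
    apply hreg
    · show ‖s‖ ≤ r
      exact hs.le
    · exact hz.2
    · show 1 / 4 * ‖z 1‖ - 3 / 4 * ‖s‖ ^ 2 < (z 1).im
      rw [hs]
      have h2 := hz.2
      have h3 := (abs_le.1 (Complex.abs_im_le_norm (z 1))).1
      nlinarith
  have h1 : 0 < r - ‖z 0‖ := by linarith [hz.1]
  have h2 : r - ‖z 0‖ ≤ ‖s - z 0‖ := by
    rw [← hs]
    exact norm_sub_norm_le _ _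
  rw [norm_mul, norm_inv]
  exact mul_le_mul (inv_anti₀ h1 h2) (hM _ hsR) (norm_nonneg _) (inv_nonneg.2 h1.le)

theorem pow_lem {x M C : ℝ} (hM : 0 ≤ M) (h : ∀ k : ℕ, x ^ k ≤ C * M ^ k) :
    x ≤ M := by
  by_contra hcon
  push Not at hcon
  rcases hM.eq_or_lt with h0 | h0
  · have h1 := h 1
    rw [← h0] at h1 hcon
    simp at h1
    linarith
  · have h1 : 1 < x / M := by
      rw [one_lt_div h0]
      exact hcon
    obtain ⟨k, hk⟩ := pow_unbounded_of_one_lt C h1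
    have h2 := h k
    rw [div_pow, lt_div_iff₀ (by positivity)] at hk
    linarith

end HartAux

open HartAux

theorem tHart : S_Hart := by
  intro R r hR hr hreg M f hf hfM
  have hz0 : (![0, Complex.I * ((r ^ 2 / 8 : ℝ) : ℂ)] : Cn 2) ∈ Co r := by
    have h1 : ‖Complex.I * ((r ^ 2 / 8 : ℝ) : ℂ)‖ = r ^ 2 / 8 := by
      rw [norm_mul, Complex.norm_I, one_mul, Complex.norm_real,
        Real.norm_of_nonneg (by positivity)]
    have h2 : (Complex.I * ((r ^ 2 / 8 : ℝ) : ℂ)).im = r ^ 2 / 8 := by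
      rw [Complex.im_mul_ofReal, Complex.I_im, one_mul]
    have h3 : 0 < r ^ 2 := by positivity
    refine ⟨⟨?_, ?_⟩, ?_⟩
    · show ‖(0 : ℂ)‖ < r
      rw [norm_zero]
      exact hr
    · show ‖Complex.I * ((r ^ 2 / 8 : ℝ) : ℂ)‖ < r ^ 2 / 4
      rw [h1]
      linarith
    · show 1 / 4 * ‖Complex.I * ((r ^ 2 / 8 : ℝ) : ℂ)‖ < (Complex.I * ((r ^ 2 / 8 : ℝ) : ℂ)).im
      rw [h1, h2]
      linarith
  have hCoR : Co r ⊆ R := by
    intro z hz
    obtain ⟨⟨h1, h2⟩, h3⟩ := hz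
    apply hreg z h1.le h2
    have := sq_nonneg ‖z 0‖
    linarith
  have hM : 0 ≤ M := (norm_nonneg _).trans (hfM _ (hCoR hz0))
  refine ⟨CI r f, dif_CI hR hr hreg hf, ?_, ?_⟩
  · intro z hz1 hz2
    have hz : z ∈ Dm r := ⟨hz1, hz2⟩
    apply pow_lem hM (C := r * (r - ‖z 0‖)⁻¹)
    intro k
    have hfk : DifferentiableOn ℂ (fun w => f w ^ k) R := hf.pow k
    have h1 : EqOn (fun w => CI r f w ^ k) (CI r (fun w => f w ^ k)) (Dm r) := by
      have a1 : AnalyticOnNhd ℂ (fun w => CI r f w ^ k) (Dm r) :=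
        Pool.Agent.Lib.Osgood.analyticOnNhd (isOpen_Dm r) ((dif_CI hR hr hreg hf).pow k)
      have a2 : AnalyticOnNhd ℂ (CI r (fun w => f w ^ k)) (Dm r) :=
        Pool.Agent.Lib.Osgood.analyticOnNhd (isOpen_Dm r) (dif_CI hR hr hreg hfk)
      refine a1.eqOn_of_preconnected_of_eventuallyEq a2 (convex_Dm r).isPreconnected hz0.1 ?_
      filter_upwards [(isOpen_Co r).mem_nhds hz0] with w hw
      rw [CI_eq hreg hf hw, CI_eq hreg hfk hw]
    have h2 := h1 hz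
    simp only at h2
    rw [← norm_pow, h2]
    have h3 := CI_le (h := fun w => f w ^ k) (M := M ^ k) hr hreg (fun w hw => by
      rw [norm_pow]
      exact pow_le_pow_left₀ (norm_nonneg _) (hfM w hw) k) hz
    rw [mul_assoc]
    exact h3
  · intro z hz1 hz2 hz3
    exact CI_eq hreg hf ⟨⟨hz1, hz2⟩, hz3⟩

end KP
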