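import Pool.Agent.Lib.KP.SpecT

/-!
# KP (MP_64edc4_ag), block T, MinP: the minimum principle for the real part
-/

set_option autoImplicit false

open Set Filter Topology Metric

namespace KP

theorem tMinP : S_MinP := by
  intro F ρ hF hpos t0 ht0 hz t ht
  have hd : DifferentiableOn ℂ (fun s => Complex.exp (-F s)) (ball 0 ρ) := hF.neg.cexp
  have hn : ∀ s, ‖Complex.exp (-F s)‖ = Real.exp (-(F s).re) := by
    intro s
    rw [Complex.norm_exp, Complex.neg_re]
  have hm : IsMaxOn (norm ∘ fun s => Complex.exp (-F s)) (ball 0 ρ) t0 := by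
    intro s hs
    rw [mem_ofPred_eq, Function.comp_apply, Function.comp_apply, hn, hn, hz, neg_zero,
      Real.exp_zero, Real.exp_le_one_iff]
    have := hpos s hs
    linarith
  have h1 := Complex.norm_eqOn_of_isPreconnected_of_isMaxOn (convex_ball (0 : ℂ) ρ).isPreconnected
    isOpen_ball hd ht0 hm ht
  rw [Function.comp_apply, Function.const_apply, hn, hn, hz, neg_zero, Real.exp_zero,
    Real.exp_eq_one_iff] at h1
  linarith

end KP
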