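import Pool.Agent.Lib.KP.SpecT

/-!
# KP (MP_64edc4_ag), block T, NorS: the square root trick
-/

set_option autoImplicit false

open Set Filter Topology Metric

namespace KP

theorem tNorS (hHP : S_HP) : S_NorS := by
  intro f hf hs t ht
  have hsl : ∀ s ∈ ball (0 : ℂ) 1, -Complex.I * f s ∈ Complex.slitPlane := by
    intro s hs'
    obtain ⟨h1, h2⟩ := hs s hs'
    rw [Complex.mem_slitPlane_iff]
    have e1 : (-Complex.I * f s).re = (f s).im := by simp
    have e2 : (-Complex.I * f s).im = -(f s).re := by simp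
    rw [e1, e2]
    by_cases h3 : (f s).re = 0
    · left
      have h4 : ‖f s‖ = |(f s).im| := by
        rw [← Complex.re_add_im (f s), h3]
        simp
      have h5 : 0 < |(f s).im| := by
        rw [← h4]
        exact norm_pos_iff.2 h1
      rw [h4] at h2
      by_contra h6
      rw [abs_of_nonpos (not_lt.1 h6)] at h2 h5
      linarith
    · exact Or.inr (by simpa using h3)
  obtain ⟨k, hk⟩ : ∃ k : ℂ → ℂ, ∀ s, k s = Complex.exp (Complex.log (-Complex.I * f s) / 2) :=
    ⟨_, fun _ => rfl⟩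
  have hkd : DifferentiableOn ℂ k (ball 0 1) := by
    have h1 : DifferentiableOn ℂ (fun s => Complex.exp (Complex.log (-Complex.I * f s) / 2))
        (ball 0 1) := (((hf.const_mul _).clog hsl).div_const _).cexp
    exact h1.congr fun s _ => hk s
  have hk2 : ∀ s ∈ ball (0 : ℂ) 1, k s ^ 2 = -Complex.I * f s := by
    intro s hs'
    rw [hk, ← Complex.exp_nat_mul]
    push_cast
    rw [mul_div_cancel₀ _ (two_ne_zero), Complex.exp_log (Complex.slitPlane_ne_zero (hsl s hs'))]
  have hkn : ∀ s ∈ ball (0 : ℂ) 1, ‖k s‖ ^ 2 = ‖f s‖ := by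
    intro s hs'
    rw [← norm_pow, hk2 s hs', norm_mul, norm_neg, Complex.norm_I, one_mul]
  have hkr : ∀ s ∈ ball (0 : ℂ) 1, 0 ≤ (k s).re := by
    intro s hs'
    rw [hk, Complex.exp_re]
    refine mul_nonneg (Real.exp_nonneg _) (Real.cos_nonneg_of_mem_Icc ?_)
    have e1 : (Complex.log (-Complex.I * f s) / 2).im = Complex.arg (-Complex.I * f s) / 2 := by
      rw [Complex.div_ofNat_im, Complex.log_im]
    rw [e1]
    have h1 := Complex.neg_pi_lt_arg (-Complex.I * f s)
    have h2 := Complex.arg_le_pi (-Complex.I * f s)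
    constructor <;> linarith
  have ht1 : t ∈ ball (0 : ℂ) 1 := by
    rw [mem_ball_zero_iff]
    linarith
  have h0 : (0 : ℂ) ∈ ball (0 : ℂ) 1 := mem_ball_self one_pos
  have h1 := hHP k 1 one_pos hkd hkr t ht1
  have h2 : ‖k t‖ ≤ 3 * ‖k 0‖ := by
    have h3 := norm_nonneg (k t)
    have h4 := norm_nonneg (k 0)
    have h5 : ‖k t‖ * (1 / 2) ≤ ‖k t‖ * (1 - ‖t‖) := mul_le_mul_of_nonneg_left (by linarith) h3
    have h6 : ‖k 0‖ * (1 + ‖t‖) ≤ ‖k 0‖ * (3 / 2) := mul_le_mul_of_nonneg_left (by linarith) h4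
    linarith
  rw [← hkn t ht1, ← hkn 0 h0]
  have h3 := norm_nonneg (k t)
  nlinarith [norm_nonneg (k 0)]

end KP
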