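import Pool.Agent.Lib.KP.SpecT

/-!
# KP (MP_64edc4_ag), block T, PkS: open mapping at a boundary point
-/

set_option autoImplicit false

open Set Filter Topology Metric

namespace KP

theorem tPkS : S_PkS := by
  intro g hg h0 hA
  rcases hg.eventually_constant_or_nhds_le_map_nhds with h1 | h1
  · rw [h0] at h1
    exact h1
  · exfalso
    rw [h0] at h1
    have h2 : {w : ℂ | -(1 / 2 * ‖w‖) ≤ w.im} ∈ 𝓝 (0 : ℂ) := h1 hA
    obtain ⟨δ, hδ, hb⟩ := Metric.mem_nhds_iff.1 h2
    have h3 : (-(((δ / 2 : ℝ) : ℂ)) * Complex.I) ∈ ball (0 : ℂ) δ := by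
      rw [mem_ball_zero_iff, norm_mul, norm_neg, Complex.norm_I, mul_one, Complex.norm_real,
        Real.norm_eq_abs, abs_of_pos (by positivity)]
      linarith
    have h4 := hb h3
    rw [mem_ofPred_eq, norm_mul, norm_neg, Complex.norm_I, mul_one, Complex.norm_real,
      Real.norm_eq_abs, abs_of_pos (by positivity)] at h4
    have e1 : (-(((δ / 2 : ℝ) : ℂ)) * Complex.I).im = -(δ / 2) := by simp
    rw [e1] at h4
    linarith

end KP
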