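import Pool.Agent.Lib.KP.SpecT

set_option autoImplicit false

open Set Filter Topology Metric

namespace KP

private theorem holOn_const {N m : ℕ} (U : Set (Cn N)) (c : Cn m) :
    HolOn (fun _ : Cn N => c) U := by
  intro z _
  exact ⟨univ, isOpen_univ, mem_univ _, fun _ => c, differentiableOn_const c, fun _ _ => rfl⟩

theorem tPt (h1 : S_BsdP) : S_Pt := by
  intro N I U hU
  obtain ⟨z, hz⟩ := hU.conn.nonempty
  have hsub : ∀ y ∈ U, y = z := by
    intro y hy
    by_contra hne
    obtain ⟨hzV, c, hcO⟩ := hU.smooth z hz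
    have hsing : ∀ x ∈ zeroSet I ∩ c.O, x = z := by
      intro x hx
      rw [← c.img] at hx
      have hz' : z ∈ c.psi '' c.W := by rw [c.img]; exact ⟨hzV, hcO⟩
      obtain ⟨w, _, rfl⟩ := hx
      obtain ⟨w', _, hw'⟩ := hz'
      rw [← hw', Subsingleton.elim w w']
    have hUV : ∀ x ∈ U, x ∈ zeroSet I := fun x hx => (hU.smooth x hx).1
    have hcov : U ⊆ c.O ∪ {z}ᶜ := by
      intro x _
      rcases eq_or_ne x z with h | h
      · left; rw [h]; exact hcO
      · right; exact h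
    obtain ⟨x, hxU, hxO, hxz⟩ := hU.conn.isPreconnected c.O {z}ᶜ c.hO isOpen_compl_singleton
      hcov ⟨z, hz, hcO⟩ ⟨y, hy, hne⟩
    exact hxz (hsing x ⟨hUV x hxU, hxO⟩)
  refine ⟨ball (0 : Cn 0) 1, h1 0, fun _ => 0, fun _ => z, holOn_const U 0,
    holOn_const _ z, fun _ _ => mem_ball_self one_pos, fun _ _ => hz, fun x hx => (hsub x hx).symm,
    fun y _ => Subsingleton.elim _ _⟩

end KP
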