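import Pool.Agent.Lib.KP.SpecT

/-! # KP, block T: scaling data of a smooth boundary point, dimension one -/

set_option autoImplicit false

open Set Filter Topology Metric

namespace KP

namespace ScA1Aux

theorem norm1 (z : Cn 1) : ‖z‖ = ‖z 0‖ := by
  refine le_antisymm ?_ (norm_le_pi_norm z 0)
  rw [pi_norm_le_iff_of_nonneg (norm_nonneg _)]
  intro i
  rw [Fin.fin_one_eq_zero i]

theorem isOpen_HH (n : ℕ) : IsOpen (HH n) := by
  have : HH n = ⋂ i : Fin n, {z : Cn n | 0 < (z i).im} := by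
    ext z; simp [HH]
  rw [this]
  refine isOpen_iInter_of_finite fun i => ?_
  exact isOpen_lt continuous_const (Complex.continuous_im.comp (continuous_apply i))

theorem convex_HH (n : ℕ) : Convex ℝ (HH n) := by
  intro x hx y hy a b ha hb hab i
  have e : ((a • x + b • y) i).im = a * (x i).im + b * (y i).im := by
    simp
  rw [e]
  have h1 := hx i
  have h2 := hy i
  rcases eq_or_lt_of_le ha with h | h
  · have : b = 1 := by linarith
    rw [← h, this]
    linarith
  · have := mul_pos h h1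
    have := mul_nonneg hb h2.le
    linarith

theorem zero_notMem {R : Set (Cn 1)} (hR : IsOpen R) {ρ1 : ℝ} (hρ1 : 0 < ρ1)
    (h : ∀ z ∈ ball (0 : Cn 1) ρ1, z ∈ R → -(1 / 4 * ‖z 0‖) ≤ (z 0).im) : (0 : Cn 1) ∉ R := by
  intro h0
  obtain ⟨r, hr, hrR⟩ := Metric.isOpen_iff.1 hR 0 h0
  have hδ : 0 < min r ρ1 / 2 := by positivity
  set δ : ℝ := min r ρ1 / 2 with hδd
  have h1 : δ < r := by
    have := min_le_left r ρ1
    rw [hδd]; linarith
  have h2 : δ < ρ1 := by
    have := min_le_right r ρ1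
    rw [hδd]; linarith
  let z : Cn 1 := fun _ => -((δ : ℂ) * Complex.I)
  have hz0 : ‖z 0‖ = δ := by
    change ‖-((δ : ℂ) * Complex.I)‖ = δ
    rw [norm_neg, norm_mul, Complex.norm_I, mul_one, Complex.norm_real, Real.norm_of_nonneg hδ.le]
  have hzn : ‖z‖ = δ := by rw [norm1, hz0]
  have h3 := h z (by rw [mem_ball_zero_iff, hzn]; exact h2)
    (hrR (by rw [mem_ball_zero_iff, hzn]; exact h1))
  rw [hz0] at h3
  have h4 : (z 0).im = -δ := by
    change (-((δ : ℂ) * Complex.I)).im = -δ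
    simp
  rw [h4] at h3
  linarith

end ScA1Aux

open ScA1Aux

theorem tScA1 (h1 : S_NorS) (h2 : S_MinP) (h3 : S_PkS) : S_ScA1 := by
  intro R hR hT
  obtain ⟨ρ1, hρ1, hT1⟩ := hT (1 / 4) (by norm_num)
  have h0R : (0 : Cn 1) ∉ R := zero_notMem hR hρ1 (fun z hz => (hT1 z hz).1)
  let ε : ℕ → ℝ := fun j => ρ1 / ((j : ℝ) + 2)
  have hε : ∀ j, 0 < ε j := fun j => by
    change 0 < ρ1 / ((j : ℝ) + 2)
    positivity
  have hεlt : ∀ j, ε j < ρ1 := fun j => by
    change ρ1 / ((j : ℝ) + 2) < ρ1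
    rw [div_lt_iff₀ (by positivity)]
    have : (0 : ℝ) ≤ j := Nat.cast_nonneg j
    nlinarith
  have hεt : Tendsto ε atTop (𝓝 0) := by
    have h4 : Tendsto (fun j : ℕ => (j : ℝ) + 2) atTop atTop :=
      tendsto_atTop_add_const_right _ _ tendsto_natCast_atTop_atTop
    exact h4.const_div_atTop ρ1
  have hεc : ∀ j, ((ε j : ℝ) : ℂ) ≠ 0 := fun j => Complex.ofReal_ne_zero.2 (hε j).ne'
  let A : ℕ → Cn 1 → Cn 1 := fun j z => ((ε j : ℝ) : ℂ) • z
  let B : ℕ → Cn 1 → Cn 1 := fun j z => (((ε j : ℝ) : ℂ)⁻¹) • z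
  have hA0 : ∀ j (z : Cn 1), A j z 0 = ((ε j : ℝ) : ℂ) * z 0 := fun j z => rfl
  have hAim : ∀ j (z : Cn 1), (A j z 0).im = ε j * (z 0).im := fun j z => by
    rw [hA0, Complex.im_ofReal_mul]
  have hAn0 : ∀ j (z : Cn 1), ‖A j z 0‖ = ε j * ‖z 0‖ := fun j z => by
    rw [hA0, norm_mul, Complex.norm_real, Real.norm_of_nonneg (hε j).le]
  have hAn : ∀ j (z : Cn 1), ‖A j z‖ = ε j * ‖z‖ := fun j z => by
    rw [norm1, hAn0, ← norm1]
  have hcore : ∀ (η ρ : ℝ), (∀ z ∈ ball (0 : Cn 1) ρ, z ∈ R → -(η * ‖z 0‖) ≤ (z 0).im) →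
      ∀ j (z : Cn 1), A j z ∈ R → ‖A j z‖ < ρ → -(η * ‖z 0‖) ≤ (z 0).im := by
    intro η ρ h j z hz hzρ
    have h4 := h (A j z) (by rw [mem_ball_zero_iff]; exact hzρ) hz
    rw [hAn0, hAim] at h4
    have h5 : ε j * (-(η * ‖z 0‖)) ≤ ε j * (z 0).im := by linarith
    exact le_of_mul_le_mul_left h5 (hε j)
  refine ⟨A, B, ?_⟩
  refine
    { opn := isOpen_HH 1
      conn := (convex_HH 1).isPreconnected
      mem := fun i => by simp
      difA := fun j => by
        change Differentiable ℂ (fun z : Cn 1 => ((ε j : ℝ) : ℂ) • z)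
        fun_prop
      difB := fun j => by
        change Differentiable ℂ (fun z : Cn 1 => (((ε j : ℝ) : ℂ)⁻¹) • z)
        fun_prop
      AB := fun j x => by
        change ((ε j : ℝ) : ℂ) • ((((ε j : ℝ) : ℂ)⁻¹) • x) = x
        rw [smul_smul, mul_inv_cancel₀ (hεc j), one_smul]
      BA := fun j x => by
        change (((ε j : ℝ) : ℂ)⁻¹) • (((ε j : ℝ) : ℂ) • x) = x
        rw [smul_smul, inv_mul_cancel₀ (hεc j), one_smul]
      inside := ?_
      start := ?_
      normal := ?_
      limit := ?_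
      peak := ?_ }
  · -- inside
    intro Q hQ hQc ρ' hρ'
    rcases Q.eq_empty_or_nonempty with hQe | hQn
    · subst hQe
      exact Filter.Eventually.of_forall fun j x hx => absurd hx (notMem_empty x)
    obtain ⟨M, hM⟩ := hQc.isBounded.exists_norm_le
    obtain ⟨q, hq, hqm⟩ := hQc.exists_isMinOn hQn
      ((Complex.continuous_im.comp (continuous_apply (0 : Fin 1))).continuousOn)
    set δ : ℝ := (q 0).im with hδ
    have hδpos : 0 < δ := hQ hq 0
    have hmin : ∀ x ∈ Q, δ ≤ (x 0).im := fun x hx => hqm hx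
    have hM0 : 0 ≤ M := (norm_nonneg _).trans (hM q hq)
    have hη : 0 < δ / (M + 1) := by positivity
    obtain ⟨ρ, hρ, hTρ⟩ := hT (δ / (M + 1)) hη
    have hev : ∀ᶠ j in atTop, ε j * (M + 1) < min ρ ρ' := by
      have h4 : Tendsto (fun j => ε j * (M + 1)) atTop (𝓝 (0 * (M + 1))) := hεt.mul_const _
      rw [zero_mul] at h4
      exact h4.eventually_lt_const (lt_min hρ hρ')
    filter_upwards [hev] with j hj x hx
    have hxM := hM x hx
    have h5 : ‖A j x‖ < min ρ ρ' := by
      rw [hAn]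
      refine lt_of_le_of_lt ?_ hj
      exact mul_le_mul_of_nonneg_left (by linarith) (hε j).le
    refine ⟨(hTρ (A j x) (by rw [mem_ball_zero_iff]; exact h5.trans_le (min_le_left _ _))).2 ?_,
      h5.trans_le (min_le_right _ _)⟩
    rw [hAn0, hAim]
    have h6 : δ / (M + 1) * ‖x 0‖ < (x 0).im := by
      refine lt_of_lt_of_le ?_ (hmin x hx)
      rw [div_mul_eq_mul_div, div_lt_iff₀ (by positivity)]
      have : ‖x 0‖ ≤ M := (norm1 x) ▸ hxM
      nlinarith
    have h7 := mul_lt_mul_of_pos_left h6 (hε j)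
    linarith
  · -- start
    intro j
    have hx : ‖(fun _ => Complex.I : Cn 1)‖ = 1 := by
      rw [norm1, Complex.norm_I]
    refine (hT1 _ ?_).2 ?_
    · rw [mem_ball_zero_iff, hAn, hx, mul_one]
      exact hεlt j
    · rw [hAn0, hAim]
      have := hε j
      simp only [Complex.norm_I, Complex.I_im]
      linarith
  · -- normal
    intro M
    refine ⟨9 * M, ρ1, 0, hρ1, ?_⟩
    intro j _ f hf hfA hf0 t ht
    have hg : DifferentiableOn ℂ (fun t => f t 0) (ball 0 1) :=
      fun x hx => (differentiableWithinAt_pi.1 (hf x hx)) 0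
    have h4 := h1 (fun t => f t 0) hg (by
      intro s hs
      obtain ⟨hs1, hs2⟩ := hfA s hs
      refine ⟨fun h => h0R ?_, hcore (1 / 4) ρ1 (fun z hz => (hT1 z hz).1) j (f s) hs1 hs2⟩
      have h5 : f s = 0 := by
        funext i
        rw [Fin.fin_one_eq_zero i]
        exact h
      have h6 : A j (f s) = 0 := by
        change ((ε j : ℝ) : ℂ) • f s = 0
        rw [h5, smul_zero]
      rw [← h6]
      exact hs1) t ht
    rw [norm1]
    refine h4.trans ?_
    rw [norm1] at hf0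
    linarith
  · -- limit
    intro φ ρ f f' hφ hρ hf hf' hlim hfA hf'0 t ht
    have key : ∀ s ∈ ball (0 : ℂ) 1, 0 ≤ (f' s 0).im := by
      intro s hs
      have hlim0 : Tendsto (fun j => f j s 0) atTop (𝓝 (f' s 0)) :=
        (tendsto_pi_nhds.1 (hlim s hs)) 0
      have hη : ∀ η > 0, -(η * ‖f' s 0‖) ≤ (f' s 0).im := by
        intro η hη
        obtain ⟨ρη, hρη, hTη⟩ := hT η hη
        have hev : ∀ᶠ j in atTop, -(η * ‖f j s 0‖) ≤ (f j s 0).im := by
          filter_upwards [hρ.eventually_lt_const hρη] with j hj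
          obtain ⟨h4, h5⟩ := hfA j s hs
          exact hcore η ρη (fun z hz => (hTη z hz).1) (φ j) (f j s) h4 (h5.trans hj)
        refine le_of_tendsto_of_tendsto ?_ ?_ hev
        · exact ((hlim0.norm).const_mul η).neg
        · exact (Complex.continuous_im.tendsto _).comp hlim0
      by_contra hneg
      push Not at hneg
      have hne : 0 < ‖f' s 0‖ := by
        rw [norm_pos_iff]
        intro h
        rw [h] at hneg
        simp at hneg
      have h4 := hη (-(f' s 0).im / (2 * ‖f' s 0‖)) (by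
        apply div_pos (by linarith) (by positivity))
      have h5 : -(f' s 0).im / (2 * ‖f' s 0‖) * ‖f' s 0‖ = -(f' s 0).im / 2 := by
        field_simp
      rw [h5] at h4
      linarith
    intro i
    rw [Fin.fin_one_eq_zero i]
    refine lt_of_le_of_ne (key t ht) fun h => ?_
    have hg : DifferentiableOn ℂ (fun t => f' t 0) (ball 0 1) :=
      fun x hx => (differentiableWithinAt_pi.1 (hf' x hx)) 0
    have hre : ∀ s, (-Complex.I * f' s 0).re = (f' s 0).im := fun s => by simp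
    have h4 := h2 (fun s => -Complex.I * f' s 0) 1 (hg.const_mul _)
      (fun s hs => by rw [hre]; exact key s hs) t ht (by rw [hre]; exact h.symm) 0
      (mem_ball_self one_pos)
    rw [hre] at h4
    have h5 := hf'0 0
    rw [h4] at h5
    exact lt_irrefl _ h5
  · -- peak
    intro f hf hfR hf0 t ht
    have hg : DifferentiableOn ℂ (fun t => f t 0) (ball 0 1) :=
      fun x hx => (differentiableWithinAt_pi.1 (hf x hx)) 0
    have han : AnalyticOnNhd ℂ (fun t => f t 0) (ball 0 1) := hg.analyticOnNhd isOpen_ball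
    obtain ⟨ρ, hρ, hTρ⟩ := hT (1 / 2) (by norm_num)
    have hcl : ∀ z ∈ closure R, z ∈ ball (0 : Cn 1) ρ → -(1 / 2 * ‖z 0‖) ≤ (z 0).im := by
      intro z hz hzρ
      have h4 : z ∈ closure (ball (0 : Cn 1) ρ ∩ R) :=
        isOpen_ball.inter_closure ⟨hzρ, hz⟩
      have h5 : IsClosed {z : Cn 1 | -(1 / 2 * ‖z 0‖) ≤ (z 0).im} := by
        refine isClosed_le ?_ ?_
        · fun_prop
        · exact Complex.continuous_im.comp (continuous_apply 0)
      exact closure_minimal (fun w hw => (hTρ w hw.1).1 hw.2) h5 h4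
    have hcont : ContinuousAt f 0 :=
      (hf 0 (mem_ball_self one_pos)).differentiableAt (isOpen_ball.mem_nhds (mem_ball_self one_pos))
        |>.continuousAt
    have hev : ∀ᶠ s in 𝓝 (0 : ℂ), -(1 / 2 * ‖f s 0‖) ≤ (f s 0).im := by
      have h4 : ∀ᶠ s in 𝓝 (0 : ℂ), f s ∈ ball (0 : Cn 1) ρ := by
        have : ball (0 : Cn 1) ρ ∈ 𝓝 (f 0) := by
          rw [hf0]; exact ball_mem_nhds _ hρ
        exact hcont this
      filter_upwards [h4, ball_mem_nhds (0 : ℂ) one_pos] with s hs1 hs2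
      exact hcl _ (hfR s hs2) hs1
    have h5 := h3 (fun t => f t 0) (han 0 (mem_ball_self one_pos)) (by
      change f 0 0 = 0
      rw [hf0]; rfl) hev
    have h6 := han.eqOn_zero_of_preconnected_of_eventuallyEq_zero
      (convex_ball (0 : ℂ) 1).isPreconnected (mem_ball_self one_pos) h5
    funext i
    rw [Fin.fin_one_eq_zero i]
    exact h6 ht

end KP
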