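import Pool.Agent.Lib.KP.SpecT

/-!
# KP (MP_64edc4_ag), block T, ScA2: scaling data of a strictly pseudoconvex boundary point
-/

set_option autoImplicit false

open Set Filter Topology Metric

namespace KP

namespace ScA2Aux

/-- the scaling -/
noncomputable def SA (e : ℝ) (z : Cn 2) : Cn 2 := ![((√e : ℝ) : ℂ) * z 0, (e : ℂ) * z 1]

theorem SA_zero (e : ℝ) (z : Cn 2) : SA e z 0 = ((√e : ℝ) : ℂ) * z 0 := rfl

theorem SA_one (e : ℝ) (z : Cn 2) : SA e z 1 = (e : ℂ) * z 1 := rfl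

/-- the inverse -/
noncomputable def SB (e : ℝ) (z : Cn 2) : Cn 2 := ![((√e : ℝ) : ℂ)⁻¹ * z 0, (e : ℂ)⁻¹ * z 1]

theorem SB_zero (e : ℝ) (z : Cn 2) : SB e z 0 = ((√e : ℝ) : ℂ)⁻¹ * z 0 := rfl

theorem SB_one (e : ℝ) (z : Cn 2) : SB e z 1 = (e : ℂ)⁻¹ * z 1 := rfl

theorem difA (e : ℝ) : Differentiable ℂ (SA e) := by
  rw [differentiable_pi]
  intro i
  fin_cases i
  · show Differentiable ℂ (fun z : Cn 2 => ((√e : ℝ) : ℂ) * z 0)
    fun_prop
  · show Differentiable ℂ (fun z : Cn 2 => (e : ℂ) * z 1)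
    fun_prop

theorem difB (e : ℝ) : Differentiable ℂ (SB e) := by
  rw [differentiable_pi]
  intro i
  fin_cases i
  · show Differentiable ℂ (fun z : Cn 2 => ((√e : ℝ) : ℂ)⁻¹ * z 0)
    fun_prop
  · show Differentiable ℂ (fun z : Cn 2 => (e : ℂ)⁻¹ * z 1)
    fun_prop

theorem AB {e : ℝ} (he : 0 < e) (z : Cn 2) : SA e (SB e z) = z := by
  have h1 : ((√e : ℝ) : ℂ) ≠ 0 := by
    exact_mod_cast (Real.sqrt_pos.2 he).ne'
  have h2 : (e : ℂ) ≠ 0 := by exact_mod_cast he.ne'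
  ext i
  fin_cases i
  · show ((√e : ℝ) : ℂ) * (((√e : ℝ) : ℂ)⁻¹ * z 0) = z 0
    rw [mul_inv_cancel_left₀ h1]
  · show (e : ℂ) * ((e : ℂ)⁻¹ * z 1) = z 1
    rw [mul_inv_cancel_left₀ h2]

theorem BA {e : ℝ} (he : 0 < e) (z : Cn 2) : SB e (SA e z) = z := by
  have h1 : ((√e : ℝ) : ℂ) ≠ 0 := by
    exact_mod_cast (Real.sqrt_pos.2 he).ne'
  have h2 : (e : ℂ) ≠ 0 := by exact_mod_cast he.ne'
  ext i
  fin_cases i
  · show ((√e : ℝ) : ℂ)⁻¹ * (((√e : ℝ) : ℂ) * z 0) = z 0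
    rw [inv_mul_cancel_left₀ h1]
  · show (e : ℂ)⁻¹ * ((e : ℂ) * z 1) = z 1
    rw [inv_mul_cancel_left₀ h2]

theorem norm0 {e : ℝ} (z : Cn 2) : ‖SA e z 0‖ = √e * ‖z 0‖ := by
  rw [SA_zero, norm_mul, Complex.norm_real, Real.norm_of_nonneg (Real.sqrt_nonneg _)]

theorem norm0sq {e : ℝ} (he : 0 < e) (z : Cn 2) : ‖SA e z 0‖ ^ 2 = e * ‖z 0‖ ^ 2 := by
  rw [norm0, mul_pow, Real.sq_sqrt he.le]

theorem norm1 {e : ℝ} (he : 0 < e) (z : Cn 2) : ‖SA e z 1‖ = e * ‖z 1‖ := by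
  rw [SA_one, norm_mul, Complex.norm_real, Real.norm_of_nonneg he.le]

theorem im1 {e : ℝ} (z : Cn 2) : (SA e z 1).im = e * (z 1).im := by
  rw [SA_one, Complex.im_ofReal_mul]

theorem norm_lt_iff {z : Cn 2} {r : ℝ} (hr : 0 < r) : ‖z‖ < r ↔ ‖z 0‖ < r ∧ ‖z 1‖ < r := by
  rw [pi_norm_lt_iff hr, Fin.forall_fin_two]

theorem convSg : Convex ℝ Sg := by
  intro x hx y hy a b ha hb hab
  simp only [Sg, mem_ofPred_eq] at hx hy ⊢
  have h0 : (a • x + b • y) 0 = a • x 0 + b • y 0 := rfl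
  have h1 : ((a • x + b • y) 1).im = a * (x 1).im + b * (y 1).im := by
    show (a • x 1 + b • y 1).im = _
    simp
  rw [h0, h1]
  have h2 : ‖a • x 0 + b • y 0‖ ≤ a * ‖x 0‖ + b * ‖y 0‖ := by
    refine (norm_add_le _ _).trans ?_
    rw [norm_smul, norm_smul, Real.norm_of_nonneg ha, Real.norm_of_nonneg hb]
  have h3 : ‖a • x 0 + b • y 0‖ ^ 2 ≤ (a * ‖x 0‖ + b * ‖y 0‖) ^ 2 :=
    pow_le_pow_left₀ (norm_nonneg _) h2 2
  have h4 : (a * ‖x 0‖ + b * ‖y 0‖) ^ 2 ≤ a * ‖x 0‖ ^ 2 + b * ‖y 0‖ ^ 2 := by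
    obtain rfl : b = 1 - a := by linarith
    nlinarith [mul_nonneg (mul_nonneg ha hb) (sq_nonneg (‖x 0‖ - ‖y 0‖))]
  have h5 : a * ‖x 0‖ ^ 2 + b * ‖y 0‖ ^ 2 < a * (x 1).im + b * (y 1).im := by
    rcases ha.eq_or_lt with h | h
    · obtain rfl : b = 1 := by linarith
      rw [← h]
      linarith
    · have h6 := mul_lt_mul_of_pos_left hx h
      have h7 := mul_le_mul_of_nonneg_left hy.le hb
      linarith
  linarith

/-- the condition at a point of a scaled region -/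
theorem cond {R : Set (Cn 2)} {η ρ : ℝ} (hT : ∀ z ∈ ball (0 : Cn 2) ρ,
    (z ∈ R → (1 - η) * ‖z 0‖ ^ 2 - η * ‖z 1‖ ≤ (z 1).im)) {e : ℝ} (he : 0 < e) {z : Cn 2}
    (hz : SA e z ∈ R) (hz' : ‖SA e z‖ < ρ) : (1 - η) * ‖z 0‖ ^ 2 - η * ‖z 1‖ ≤ (z 1).im := by
  have h := hT (SA e z) (by rwa [mem_ball_zero_iff]) hz
  rw [norm0sq he, norm1 he, im1] at h
  have h1 : e * ((1 - η) * ‖z 0‖ ^ 2 - η * ‖z 1‖) ≤ e * (z 1).im := by
    calc e * ((1 - η) * ‖z 0‖ ^ 2 - η * ‖z 1‖) =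
        (1 - η) * (e * ‖z 0‖ ^ 2) - η * (e * ‖z 1‖) := by ring
      _ ≤ _ := h
  exact le_of_mul_le_mul_left h1 he

theorem clos {R : Set (Cn 2)} {ρ : ℝ} (hT : ∀ z ∈ ball (0 : Cn 2) ρ,
    (z ∈ R → (1 - 1 / 4) * ‖z 0‖ ^ 2 - 1 / 4 * ‖z 1‖ ≤ (z 1).im)) {z : Cn 2}
    (hz : z ∈ closure R) (hz' : z ∈ ball (0 : Cn 2) ρ) :
    (1 - 1 / 4) * ‖z 0‖ ^ 2 - 1 / 4 * ‖z 1‖ ≤ (z 1).im := by
  have h1 : z ∈ closure (ball (0 : Cn 2) ρ ∩ R) :=
    isOpen_ball.inter_closure ⟨hz', hz⟩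
  have h2 : IsClosed {z : Cn 2 | (1 - 1 / 4 : ℝ) * ‖z 0‖ ^ 2 - 1 / 4 * ‖z 1‖ ≤ (z 1).im} := by
    apply isClosed_le
    · fun_prop
    · exact Complex.continuous_im.comp (continuous_apply 1)
  exact closure_minimal (fun w hw => hT w hw.1 hw.2) h2 h1

end ScA2Aux

open ScA2Aux

theorem tScA2 (h1 : S_NorS) (h2 : S_MinP) (h3 : S_PkS) : S_ScA2 := by
  intro R hR hT
  obtain ⟨ρ0, hρ0, hT0⟩ := hT (1 / 4) (by norm_num)
  have hTl : ∀ z ∈ ball (0 : Cn 2) ρ0,
      (z ∈ R → (1 - 1 / 4) * ‖z 0‖ ^ 2 - 1 / 4 * ‖z 1‖ ≤ (z 1).im) := fun z hz => (hT0 z hz).1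
  set ρ1 : ℝ := min ρ0 1 with hρ1d
  have hρ1 : 0 < ρ1 := lt_min hρ0 one_pos
  have hρ10 : ρ1 ≤ ρ0 := min_le_left _ _
  have hρ11 : ρ1 ≤ 1 := min_le_right _ _
  set ε : ℕ → ℝ := fun j => ρ1 / (j + 2) with hε
  have hεp : ∀ j, 0 < ε j := fun j => by
    simp only [hε]
    positivity
  have hεl : ∀ j, ε j < ρ1 := fun j => by
    simp only [hε]
    rw [div_lt_iff₀ (by positivity)]
    have h4 : (0 : ℝ) ≤ j := Nat.cast_nonneg j
    nlinarith
  have hεt : Tendsto ε atTop (𝓝 0) := by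
    have h4 : Tendsto (fun j : ℕ => (j : ℝ) + 2) atTop atTop :=
      tendsto_atTop_add_const_right _ _ tendsto_natCast_atTop_atTop
    exact tendsto_const_nhds.div_atTop h4
  have hεs : ∀ j, ε j ≤ √(ε j) := fun j => by
    have h4 := (hεl j).le.trans hρ11
    have h5 := (hεp j).le
    exact Real.le_sqrt_of_sq_le (by nlinarith)
  have hεst : Tendsto (fun j => √(ε j)) atTop (𝓝 0) := by
    have h4 := (Real.continuous_sqrt.tendsto 0).comp hεt
    rwa [Real.sqrt_zero] at h4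
  have h0R : (0 : Cn 2) ∉ R := by
    intro h0
    obtain ⟨r, hr, hrR⟩ := Metric.isOpen_iff.1 hR 0 h0
    set δ : ℝ := min r ρ0 / 2 with hδ
    have hδ0 : 0 < δ := half_pos (lt_min hr hρ0)
    have hδr : δ < r := by
      have := min_le_left r ρ0
      rw [hδ]; linarith
    have hδρ : δ < ρ0 := by
      have := min_le_right r ρ0
      rw [hδ]; linarith
    set z : Cn 2 := ![0, -(Complex.I * δ)] with hz
    have hz0 : z 0 = 0 := rfl
    have hz1 : z 1 = -(Complex.I * δ) := rfl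
    have hn1 : ‖z 1‖ = δ := by
      rw [hz1, norm_neg, norm_mul, Complex.norm_I, one_mul, Complex.norm_real,
        Real.norm_of_nonneg hδ0.le]
    have hi1 : (z 1).im = -δ := by
      rw [hz1]
      simp
    have hb : ∀ s, δ < s → z ∈ ball (0 : Cn 2) s := by
      intro s hs
      rw [mem_ball_zero_iff, norm_lt_iff (hδ0.trans hs), hz0, hn1, norm_zero]
      exact ⟨hδ0.trans hs, hs⟩
    have h4 := hTl z (hb _ hδρ) (hrR (hb _ hδr))
    rw [hz0, hn1, hi1, norm_zero] at h4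
    linarith
  have hne : ∀ (j : ℕ) (z : Cn 2), SA (ε j) z ∈ R → ‖SA (ε j) z‖ < ρ0 →
      z 1 ≠ 0 ∧ (1 - 1 / 4) * ‖z 0‖ ^ 2 - 1 / 4 * ‖z 1‖ ≤ (z 1).im := by
    intro j z hz hz'
    have h4 := cond hTl (hεp j) hz hz'
    refine ⟨?_, h4⟩
    intro h5
    rw [h5, norm_zero, Complex.zero_im] at h4
    have h6 : z 0 = 0 := by
      rw [← norm_eq_zero]
      have := norm_nonneg (z 0)
      nlinarith
    apply h0R
    have h7 : SA (ε j) z = 0 := by
      ext i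
      fin_cases i
      · show ((√(ε j) : ℝ) : ℂ) * z 0 = 0
        rw [h6, mul_zero]
      · show ((ε j : ℝ) : ℂ) * z 1 = 0
        rw [h5, mul_zero]
    rwa [h7] at hz
  refine ⟨fun j => SA (ε j), fun j => SB (ε j), ?_⟩
  refine ⟨?_, convSg.isPreconnected, ?_, fun j => difA _, fun j => difB _,
    fun j x => AB (hεp j) x, fun j x => BA (hεp j) x, ?_, ?_, ?_, ?_, ?_⟩
  · -- open
    apply isOpen_lt
    · fun_prop
    · exact Complex.continuous_im.comp (continuous_apply 1)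
  · -- mem
    show ‖(0 : ℂ)‖ ^ 2 < Complex.I.im
    norm_num
  · -- inside
    intro Q hQ hQc ρ' hρ'
    obtain ⟨δ, hδ, hδQ⟩ : ∃ δ > 0, ∀ x ∈ Q, δ ≤ (x 1).im - ‖x 0‖ ^ 2 := by
      have hc : ContinuousOn (fun x : Cn 2 => (x 1).im - ‖x 0‖ ^ 2) Q := by
        apply Continuous.continuousOn
        have := Complex.continuous_im.comp (continuous_apply (A := fun _ : Fin 2 => ℂ) 1)
        exact this.sub (by fun_prop)
      rcases Q.eq_empty_or_nonempty with rfl | hne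
      · exact ⟨1, one_pos, fun x hx => absurd hx (notMem_empty x)⟩
      · obtain ⟨x, hx, hmin⟩ := hQc.exists_isMinOn hne hc
        refine ⟨(x 1).im - ‖x 0‖ ^ 2, ?_, fun y hy => hmin hy⟩
        have := hQ hx
        simp only [Sg, mem_ofPred_eq] at this
        linarith
    obtain ⟨M0, hM0⟩ := hQc.isBounded.exists_norm_le
    set M : ℝ := max M0 1 with hM
    have hM1 : 1 ≤ M := le_max_right _ _
    have hMQ : ∀ x ∈ Q, ‖x 0‖ ≤ M ∧ ‖x 1‖ ≤ M := by
      intro x hx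
      have h4 := (hM0 x hx).trans (le_max_left M0 1)
      exact ⟨(norm_le_pi_norm x 0).trans h4, (norm_le_pi_norm x 1).trans h4⟩
    set η : ℝ := δ / (2 * (M ^ 2 + M)) with hη
    have hηp : 0 < η := by positivity
    have hηM : η * (M ^ 2 + M) = δ / 2 := by
      rw [hη]
      field_simp
    obtain ⟨ρη, hρη, hTη⟩ := hT η hηp
    have hev : ∀ᶠ j in atTop, √(ε j) * M < min ρη ρ' := by
      have h4 : Tendsto (fun j => √(ε j) * M) atTop (𝓝 0) := by
        simpa using hεst.mul_const M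
      exact h4.eventually (Iio_mem_nhds (lt_min hρη hρ'))
    filter_upwards [hev] with j hj x hx
    obtain ⟨hx0, hx1⟩ := hMQ x hx
    have hmp : 0 < min ρη ρ' := lt_min hρη hρ'
    have hnorm : ‖SA (ε j) x‖ < min ρη ρ' := by
      rw [norm_lt_iff hmp, norm0, norm1 (hεp j)]
      constructor
      · exact lt_of_le_of_lt (mul_le_mul_of_nonneg_left hx0 (Real.sqrt_nonneg _)) hj
      · refine lt_of_le_of_lt ?_ hj
        exact mul_le_mul (hεs j) hx1 (norm_nonneg _) (Real.sqrt_nonneg _)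
    refine ⟨?_, hnorm.trans_le (min_le_right _ _)⟩
    apply (hTη _ (by rw [mem_ball_zero_iff]; exact hnorm.trans_le (min_le_left _ _))).2
    rw [norm0sq (hεp j), norm1 (hεp j), im1]
    have h4 : (1 + η) * ‖x 0‖ ^ 2 + η * ‖x 1‖ < (x 1).im := by
      have h5 := hδQ x hx
      have h6 : ‖x 0‖ ^ 2 ≤ M ^ 2 := pow_le_pow_left₀ (norm_nonneg _) hx0 2
      have h7 : η * (‖x 0‖ ^ 2 + ‖x 1‖) ≤ η * (M ^ 2 + M) :=
        mul_le_mul_of_nonneg_left (add_le_add h6 hx1) hηp.le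
      rw [hηM] at h7
      nlinarith
    have h5 := mul_lt_mul_of_pos_left h4 (hεp j)
    calc (1 + η) * (ε j * ‖x 0‖ ^ 2) + η * (ε j * ‖x 1‖) =
        ε j * ((1 + η) * ‖x 0‖ ^ 2 + η * ‖x 1‖) := by ring
      _ < _ := h5
  · -- start
    intro j
    have hz0 : SA (ε j) ![0, Complex.I] 0 = 0 := by
      rw [SA_zero]
      simp
    have hz1 : ‖SA (ε j) ![0, Complex.I] 1‖ = ε j := by
      rw [norm1 (hεp j)]
      simp
    have hz2 : (SA (ε j) ![0, Complex.I] 1).im = ε j := by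
      rw [im1]
      simp
    apply (hT0 _ ?_).2
    · rw [hz0, hz1, hz2, norm_zero]
      have := hεp j
      linarith
    · rw [mem_ball_zero_iff, norm_lt_iff hρ0, hz0, hz1, norm_zero]
      exact ⟨hρ0, (hεl j).trans_le hρ10⟩
  · -- normal
    intro M
    refine ⟨15 * M + 9 * M + 1, ρ0, 0, hρ0, ?_⟩
    intro j _ f hf hfR hfM t ht
    have hM : 0 ≤ M := (norm_nonneg _).trans hfM
    have hd : DifferentiableOn ℂ (fun t => f t 1) (ball 0 1) := by
      rw [differentiableOn_pi] at hf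
      exact hf 1
    have hc : ∀ t ∈ ball (0 : ℂ) 1, f t 1 ≠ 0 ∧
        (1 - 1 / 4) * ‖f t 0‖ ^ 2 - 1 / 4 * ‖f t 1‖ ≤ (f t 1).im := fun t ht =>
      hne j (f t) (hfR t ht).1 (hfR t ht).2
    have h4 := h1 (fun t => f t 1) hd (fun t ht => by
      obtain ⟨h5, h6⟩ := hc t ht
      refine ⟨h5, ?_⟩
      have := sq_nonneg ‖f t 0‖
      show -(1 / 4 * ‖f t 1‖) ≤ (f t 1).im
      linarith) t ht
    have h5 : ‖f t 1‖ ≤ 9 * M := by
      refine h4.trans ?_
      have := (norm_le_pi_norm (f 0) 1).trans hfM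
      show 9 * ‖f 0 1‖ ≤ 9 * M
      linarith
    have htb : t ∈ ball (0 : ℂ) 1 := by
      rw [mem_ball_zero_iff]
      linarith
    have h6 := (hc t htb).2
    have h7 : (f t 1).im ≤ ‖f t 1‖ := (le_abs_self _).trans (Complex.abs_im_le_norm _)
    have h8 : ‖f t 0‖ ^ 2 ≤ 15 * M := by linarith
    have h9 : ‖f t 0‖ ≤ 15 * M + 1 := by nlinarith [sq_nonneg (‖f t 0‖ - 1), norm_nonneg (f t 0)]
    rw [pi_norm_le_iff_of_nonneg (by positivity), Fin.forall_fin_two]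
    constructor <;> linarith
  · -- limit
    intro φ ρ f f' hφ hρ hf hf' hlim hR' h00 t0 ht0
    have ev0 : ∀ (i : Fin 2) (t : ℂ), t ∈ ball (0 : ℂ) 1 →
        Tendsto (fun j => f j t i) atTop (𝓝 (f' t i)) := fun i t ht =>
      tendsto_pi_nhds.1 (hlim t ht) i
    have key : ∀ t ∈ ball (0 : ℂ) 1, ‖f' t 0‖ ^ 2 ≤ (f' t 1).im := by
      intro t ht
      have hall : ∀ η > 0, (1 - η) * ‖f' t 0‖ ^ 2 - η * ‖f' t 1‖ ≤ (f' t 1).im := by
        intro η hη
        obtain ⟨ρη, hρη, hTη⟩ := hT η hη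
        have l0 := (ev0 0 t ht).norm
        have l1 := (ev0 1 t ht).norm
        have l2 := (Complex.continuous_im.tendsto _).comp (ev0 1 t ht)
        refine le_of_tendsto_of_tendsto (((l0.pow 2).const_mul (1 - η)).sub (l1.const_mul η)) l2 ?_
        have h4 : ∀ᶠ j in atTop, ρ j < ρη := hρ.eventually (Iio_mem_nhds hρη)
        filter_upwards [h4] with j hj
        exact cond (fun z hz => (hTη z hz).1) (hεp (φ j)) (hR' j t ht).1
          ((hR' j t ht).2.trans hj)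
      refine le_of_forall_pos_le_add fun e he => ?_
      set S : ℝ := ‖f' t 0‖ ^ 2 + ‖f' t 1‖ + 1 with hS
      have hS0 : 0 < S := by positivity
      have h4 := hall (e / S) (by positivity)
      have h5 : e / S * (‖f' t 0‖ ^ 2 + ‖f' t 1‖) ≤ e := by
        calc e / S * (‖f' t 0‖ ^ 2 + ‖f' t 1‖) ≤ e / S * S := by
              apply mul_le_mul_of_nonneg_left _ (by positivity)
              rw [hS]; linarith
          _ = e := by field_simp
      nlinarith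
    rcases (key t0 ht0).lt_or_eq with h4 | h4
    · exact h4
    · exfalso
      set a : ℂ := f' t0 0 with ha
      have hcomp : ∀ i : Fin 2, DifferentiableOn ℂ (fun t => f' t i) (ball 0 1) := fun i =>
        (differentiableOn_pi.1 hf') i
      have hFd : DifferentiableOn ℂ (fun t => -Complex.I * f' t 1 -
          2 * (starRingEnd ℂ) a * f' t 0 + ((‖a‖ ^ 2 : ℝ) : ℂ)) (ball 0 1) :=
        (((hcomp 1).const_mul _).sub ((hcomp 0).const_mul _)).add_const _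
      have hre : ∀ t, (-Complex.I * f' t 1 -
          2 * (starRingEnd ℂ) a * f' t 0 + ((‖a‖ ^ 2 : ℝ) : ℂ)).re =
          (f' t 1).im - ‖f' t 0‖ ^ 2 + ‖f' t 0 - a‖ ^ 2 := by
        intro t
        rw [← Complex.normSq_eq_norm_sq, ← Complex.normSq_eq_norm_sq, ← Complex.normSq_eq_norm_sq,
          Complex.normSq_apply, Complex.normSq_apply, Complex.normSq_apply]
        simp only [Complex.add_re, Complex.sub_re, Complex.mul_re, Complex.neg_re, Complex.I_re,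
          Complex.neg_im, Complex.I_im, Complex.ofReal_re, Complex.sub_im, Complex.conj_re,
          Complex.conj_im, Complex.mul_im, Complex.re_ofNat, Complex.im_ofNat]
        ring
      have h5 := h2 _ 1 hFd (fun t ht => by
        rw [hre]
        have h6 := key t ht
        have h7 := sq_nonneg ‖f' t 0 - a‖
        linarith) t0 ht0 (by
        rw [hre, ← h4, ← ha, sub_self, sub_self, norm_zero]
        norm_num) 0 (mem_ball_self one_pos)
      rw [hre] at h5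
      simp only [Sg, mem_ofPred_eq] at h00
      have h7 := sq_nonneg ‖f' 0 0 - a‖
      linarith
  · -- peak
    intro f hf hfc hf0
    have hcont : ContinuousAt f 0 :=
      (hf.continuousOn.continuousAt (isOpen_ball.mem_nhds (mem_ball_self one_pos)))
    have hev : ∀ᶠ t in 𝓝 (0 : ℂ), f t ∈ ball (0 : Cn 2) ρ0 ∧ t ∈ ball (0 : ℂ) 1 := by
      refine (hcont.eventually ?_).and (isOpen_ball.mem_nhds (mem_ball_self one_pos))
      rw [hf0]
      exact ball_mem_nhds _ hρ0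
    have hcl : ∀ᶠ t in 𝓝 (0 : ℂ),
        (1 - 1 / 4) * ‖f t 0‖ ^ 2 - 1 / 4 * ‖f t 1‖ ≤ (f t 1).im := by
      filter_upwards [hev] with t ht
      exact clos hTl (hfc t ht.2) ht.1
    have hd : DifferentiableOn ℂ (fun t => f t 1) (ball 0 1) := (differentiableOn_pi.1 hf) 1
    have h4 := h3 (fun t => f t 1)
      (hd.analyticAt (isOpen_ball.mem_nhds (mem_ball_self one_pos))) (by rw [hf0]; rfl) (by
        filter_upwards [hcl] with t ht
        have h5 := sq_nonneg ‖f t 0‖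
        have h6 := norm_nonneg (f t 1)
        linarith)
    have h5 : ∀ᶠ t in 𝓝 (0 : ℂ), f t = 0 := by
      filter_upwards [hcl, h4] with t ht1 ht2
      rw [ht2, norm_zero, Complex.zero_im] at ht1
      have h6 : f t 0 = 0 := by
        rw [← norm_eq_zero]
        have := norm_nonneg (f t 0)
        nlinarith
      ext i
      fin_cases i
      · exact h6
      · exact ht2
    have h6 : AnalyticOnNhd ℂ f (ball 0 1) := hf.analyticOnNhd isOpen_ball
    exact h6.eqOn_zero_of_preconnected_of_eventuallyEq_zero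
      (convex_ball (0 : ℂ) 1).isPreconnected (mem_ball_self one_pos) h5

end KP
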