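import Pool.Agent.Lib.KP.SpecT

/-!
# KP (MP_64edc4_ag), block T, ScD: scaling data of a corner
-/

set_option autoImplicit false

open Set Filter Topology Metric

namespace KP

namespace ScDAux

/-- fact (E) -/
theorem factE {a b η : ℝ} (hη : 0 < η) (hη' : η ≤ 1 / 8) (ha : -(η * (|a| + |b|)) ≤ a)
    (hb : -(η * (|a| + |b|)) ≤ b) : |a| + |b| ≤ 2 * (a + b) := by
  have hS : 0 ≤ |a| + |b| := add_nonneg (abs_nonneg _) (abs_nonneg _)
  have h1 : |a| ≤ a + 2 * (η * (|a| + |b|)) := by
    rcases abs_cases a with ⟨h, h'⟩ | ⟨h, h'⟩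
    · have : 0 ≤ η * (|a| + |b|) := mul_nonneg hη.le hS
      linarith
    · linarith
  have h2 : |b| ≤ b + 2 * (η * (|a| + |b|)) := by
    rcases abs_cases b with ⟨h, h'⟩ | ⟨h, h'⟩
    · have : 0 ≤ η * (|a| + |b|) := mul_nonneg hη.le hS
      linarith
    · linarith
  have h3 : η * (|a| + |b|) ≤ 1 / 8 * (|a| + |b|) := mul_le_mul_of_nonneg_right hη' hS
  linarith

/-- the scaling -/
noncomputable def SA (e : ℝ) (z : Cn 2) : Cn 2 := fun i => (e : ℂ) * z i

/-- the inverse -/
noncomputable def SB (e : ℝ) (z : Cn 2) : Cn 2 := fun i => (e : ℂ)⁻¹ * z i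

theorem difA (e : ℝ) : Differentiable ℂ (SA e) := by
  rw [differentiable_pi]
  intro i
  show Differentiable ℂ (fun z : Cn 2 => (e : ℂ) * z i)
  fun_prop

theorem difB (e : ℝ) : Differentiable ℂ (SB e) := by
  rw [differentiable_pi]
  intro i
  show Differentiable ℂ (fun z : Cn 2 => (e : ℂ)⁻¹ * z i)
  fun_prop

theorem AB {e : ℝ} (he : 0 < e) (z : Cn 2) : SA e (SB e z) = z := by
  have h2 : (e : ℂ) ≠ 0 := by exact_mod_cast he.ne'
  ext i
  show (e : ℂ) * ((e : ℂ)⁻¹ * z i) = z i
  rw [mul_inv_cancel_left₀ h2]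

theorem BA {e : ℝ} (he : 0 < e) (z : Cn 2) : SB e (SA e z) = z := by
  have h2 : (e : ℂ) ≠ 0 := by exact_mod_cast he.ne'
  ext i
  show (e : ℂ)⁻¹ * ((e : ℂ) * z i) = z i
  rw [inv_mul_cancel_left₀ h2]

theorem normi {e : ℝ} (he : 0 < e) (z : Cn 2) (i : Fin 2) : ‖SA e z i‖ = e * ‖z i‖ := by
  show ‖(e : ℂ) * z i‖ = e * ‖z i‖
  rw [norm_mul, Complex.norm_real, Real.norm_of_nonneg he.le]

theorem imi {e : ℝ} (z : Cn 2) (i : Fin 2) : (SA e z i).im = e * (z i).im := by
  show ((e : ℂ) * z i).im = _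
  rw [Complex.im_ofReal_mul]

/-- the sum of the imaginary parts in absolute value -/
noncomputable def sm (z : Cn 2) : ℝ := |(z 0).im| + |(z 1).im|

theorem sm_SA {e : ℝ} (he : 0 < e) (z : Cn 2) : sm (SA e z) = e * sm z := by
  unfold sm
  rw [imi, imi, abs_mul, abs_mul, abs_of_pos he]
  ring

theorem sm_nonneg (z : Cn 2) : 0 ≤ sm z := add_nonneg (abs_nonneg _) (abs_nonneg _)

theorem sm_le {z : Cn 2} {M : ℝ} (h0 : ‖z 0‖ ≤ M) (h1 : ‖z 1‖ ≤ M) : sm z ≤ 2 * M := by
  have h2 := (Complex.abs_im_le_norm (z 0)).trans h0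
  have h3 := (Complex.abs_im_le_norm (z 1)).trans h1
  unfold sm
  linarith

theorem continuous_sm : Continuous sm := by
  unfold sm
  have h0 := Complex.continuous_im.comp (continuous_apply (A := fun _ : Fin 2 => ℂ) 0)
  have h1 := Complex.continuous_im.comp (continuous_apply (A := fun _ : Fin 2 => ℂ) 1)
  exact h0.abs.add h1.abs

theorem norm_lt_iff {z : Cn 2} {r : ℝ} (hr : 0 < r) : ‖z‖ < r ↔ ‖z 0‖ < r ∧ ‖z 1‖ < r := by
  rw [pi_norm_lt_iff hr, Fin.forall_fin_two]

theorem convHH : Convex ℝ (HH 2) := by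
  intro x hx y hy a b ha hb hab i
  have h1 : ((a • x + b • y) i).im = a * (x i).im + b * (y i).im := by
    show (a • x i + b • y i).im = _
    simp
  rw [h1]
  have h2 := hx i
  have h3 := hy i
  rcases ha.eq_or_lt with h | h
  · obtain rfl : b = 1 := by linarith
    rw [← h]
    linarith
  · have h6 := mul_pos h h2
    have h7 := mul_nonneg hb h3.le
    linarith

/-- the condition in a form which is convenient -/
def CD (R : Set (Cn 2)) (η ρ : ℝ) : Prop := ∀ z ∈ ball (0 : Cn 2) ρ, z ∈ R →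
  ∀ i, -(η * sm z) ≤ (z i).im

theorem cond {R : Set (Cn 2)} {η ρ : ℝ} (hT : CD R η ρ) {e : ℝ} (he : 0 < e) {z : Cn 2}
    (hz : SA e z ∈ R) (hz' : ‖SA e z‖ < ρ) (i : Fin 2) : -(η * sm z) ≤ (z i).im := by
  have h := hT (SA e z) (by rwa [mem_ball_zero_iff]) hz i
  rw [sm_SA he, imi] at h
  have h1 : e * (-(η * sm z)) ≤ e * (z i).im := by
    calc e * (-(η * sm z)) = -(η * (e * sm z)) := by ring
      _ ≤ _ := h
  exact le_of_mul_le_mul_left h1 he

theorem clos {R : Set (Cn 2)} {η ρ : ℝ} (hT : CD R η ρ) {z : Cn 2}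
    (hz : z ∈ closure R) (hz' : z ∈ ball (0 : Cn 2) ρ) (i : Fin 2) :
    -(η * sm z) ≤ (z i).im := by
  have h1 : z ∈ closure (ball (0 : Cn 2) ρ ∩ R) :=
    isOpen_ball.inter_closure ⟨hz', hz⟩
  have h2 : IsClosed {z : Cn 2 | -(η * sm z) ≤ (z i).im} := by
    apply isClosed_le
    · exact (continuous_sm.const_mul η |>.neg)
    · exact Complex.continuous_im.comp (continuous_apply i)
  exact closure_minimal (fun w hw => hT w hw.1 hw.2 i) h2 h1

/-- a holomorphic function with real values near `0` and value `0` at `0` is zero near `0` -/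
theorem real_zero {g : ℂ → ℂ} (hg : AnalyticAt ℂ g 0) (h0 : g 0 = 0)
    (him : ∀ᶠ t in 𝓝 (0 : ℂ), (g t).im = 0) : ∀ᶠ t in 𝓝 (0 : ℂ), g t = 0 := by
  rcases hg.eventually_constant_or_nhds_le_map_nhds with h | h
  · rw [h0] at h
    exact h
  · exfalso
    rw [h0] at h
    have h1 : {w : ℂ | w.im = 0} ∈ 𝓝 (0 : ℂ) := h him
    obtain ⟨r, hr, hr'⟩ := Metric.mem_nhds_iff.1 h1
    have h2 : (((r / 2 : ℝ) : ℂ) * Complex.I) ∈ ball (0 : ℂ) r := by
      rw [mem_ball_zero_iff, norm_mul, Complex.norm_I, Complex.norm_real,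
        Real.norm_of_nonneg (by linarith), mul_one]
      linarith
    have h3 := hr' h2
    rw [mem_ofPred_eq, Complex.im_ofReal_mul, Complex.I_im] at h3
    linarith

end ScDAux

open ScDAux

theorem tScD (h1 : S_HP) (h2 : S_MinP) : S_ScD := by
  intro R hR hT
  have hC : ∀ η > 0, ∃ ρ > 0, CD R η ρ ∧ ∀ z ∈ ball (0 : Cn 2) ρ,
      (∀ i, η * sm z < (z i).im) → z ∈ R := by
    intro η hη
    obtain ⟨ρ, hρ, h⟩ := hT η hη
    refine ⟨ρ, hρ, ?_, ?_⟩
    · intro z hz hzR i
      have h3 := (h z hz).1 hzR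
      fin_cases i
      · exact h3.1
      · exact h3.2
    · intro z hz hzR
      exact (h z hz).2 (hzR 0) (hzR 1)
  obtain ⟨ρ0, hρ0, hT0, hT1⟩ := hC (1 / 8) (by norm_num)
  set ε : ℕ → ℝ := fun j => ρ0 / (j + 2) with hε
  have hεp : ∀ j, 0 < ε j := fun j => by
    simp only [hε]
    positivity
  have hεl : ∀ j, ε j < ρ0 := fun j => by
    simp only [hε]
    rw [div_lt_iff₀ (by positivity)]
    have h4 : (0 : ℝ) ≤ j := Nat.cast_nonneg j
    nlinarith
  have hεt : Tendsto ε atTop (𝓝 0) := by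
    have h4 : Tendsto (fun j : ℕ => (j : ℝ) + 2) atTop atTop :=
      tendsto_atTop_add_const_right _ _ tendsto_natCast_atTop_atTop
    exact tendsto_const_nhds.div_atTop h4
  refine ⟨fun j => SA (ε j), fun j => SB (ε j), ?_⟩
  refine ⟨?_, convHH.isPreconnected, ?_, fun j => difA _, fun j => difB _,
    fun j x => AB (hεp j) x, fun j x => BA (hεp j) x, ?_, ?_, ?_, ?_, ?_⟩
  · -- open
    have h3 : HH 2 = {z : Cn 2 | 0 < (z 0).im} ∩ {z : Cn 2 | 0 < (z 1).im} := by
      ext z
      simp only [HH, mem_ofPred_eq, mem_inter_iff, Fin.forall_fin_two]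
    rw [h3]
    exact (isOpen_lt continuous_const (Complex.continuous_im.comp (continuous_apply 0))).inter
      (isOpen_lt continuous_const (Complex.continuous_im.comp (continuous_apply 1)))
  · -- mem
    intro i
    show 0 < Complex.I.im
    norm_num
  · -- inside
    intro Q hQ hQc ρ' hρ'
    have hδ' : ∀ i : Fin 2, ∃ δ > 0, ∀ x ∈ Q, δ ≤ (x i).im := by
      intro i
      have hc : ContinuousOn (fun x : Cn 2 => (x i).im) Q :=
        (Complex.continuous_im.comp (continuous_apply i)).continuousOn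
      rcases Q.eq_empty_or_nonempty with rfl | hne
      · exact ⟨1, one_pos, fun x hx => absurd hx (notMem_empty x)⟩
      · obtain ⟨x, hx, hmin⟩ := hQc.exists_isMinOn hne hc
        exact ⟨(x i).im, hQ hx i, fun y hy => hmin hy⟩
    obtain ⟨δ0, hδ0, hδQ0⟩ := hδ' 0
    obtain ⟨δ1, hδ1, hδQ1⟩ := hδ' 1
    set δ : ℝ := min δ0 δ1 with hδd
    have hδ : 0 < δ := lt_min hδ0 hδ1
    have hδQ : ∀ x ∈ Q, ∀ i : Fin 2, δ ≤ (x i).im := by
      intro x hx i
      fin_cases i
      · exact (min_le_left _ _).trans (hδQ0 x hx)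
      · exact (min_le_right _ _).trans (hδQ1 x hx)
    obtain ⟨M0, hM0⟩ := hQc.isBounded.exists_norm_le
    set M : ℝ := max M0 1 with hM
    have hM1 : 1 ≤ M := le_max_right _ _
    have hMQ : ∀ x ∈ Q, ∀ i, ‖x i‖ ≤ M := by
      intro x hx i
      exact (norm_le_pi_norm x i).trans ((hM0 x hx).trans (le_max_left M0 1))
    set η : ℝ := δ / (4 * M) with hη
    have hηp : 0 < η := by positivity
    have hηM : η * (2 * M) = δ / 2 := by
      rw [hη]
      field_simp
      ring
    obtain ⟨ρη, hρη, -, hTη⟩ := hC η hηp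
    have hev : ∀ᶠ j in atTop, ε j * M < min ρη ρ' := by
      have h4 : Tendsto (fun j => ε j * M) atTop (𝓝 0) := by
        simpa using hεt.mul_const M
      exact h4.eventually (Iio_mem_nhds (lt_min hρη hρ'))
    filter_upwards [hev] with j hj x hx
    have hx0 := hMQ x hx
    have hmp : 0 < min ρη ρ' := lt_min hρη hρ'
    have hnorm : ‖SA (ε j) x‖ < min ρη ρ' := by
      rw [pi_norm_lt_iff hmp]
      intro i
      rw [normi (hεp j)]
      exact lt_of_le_of_lt (mul_le_mul_of_nonneg_left (hx0 i) (hεp j).le) hj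
    refine ⟨?_, hnorm.trans_le (min_le_right _ _)⟩
    apply hTη _ (by rw [mem_ball_zero_iff]; exact hnorm.trans_le (min_le_left _ _))
    intro i
    rw [sm_SA (hεp j), imi]
    have h4 : η * sm x < (x i).im := by
      have h5 := hδQ x hx i
      have h7 : η * sm x ≤ η * (2 * M) :=
        mul_le_mul_of_nonneg_left (sm_le (hx0 0) (hx0 1)) hηp.le
      rw [hηM] at h7
      linarith
    have h5 := mul_lt_mul_of_pos_left h4 (hεp j)
    calc η * (ε j * sm x) = ε j * (η * sm x) := by ring
      _ < _ := h5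
  · -- start
    intro j
    have hn : ∀ i, ‖SA (ε j) (fun _ => Complex.I) i‖ = ε j := by
      intro i
      rw [normi (hεp j), Complex.norm_I, mul_one]
    have hi : ∀ i, (SA (ε j) (fun _ => Complex.I) i).im = ε j := by
      intro i
      rw [imi, Complex.I_im, mul_one]
    apply hT1
    · rw [mem_ball_zero_iff, pi_norm_lt_iff hρ0]
      intro i
      rw [hn]
      exact hεl j
    · intro i
      have h4 := hεp j
      unfold sm
      rw [hi, hi, hi, abs_of_pos h4]
      linarith
  · -- normal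
    intro M
    refine ⟨6 * (28 * M + 1) + 5 * M, ρ0, 0, hρ0, ?_⟩
    intro j _ f hf hfR hfM t ht
    have hM : 0 ≤ M := (norm_nonneg _).trans hfM
    have hd : ∀ i, DifferentiableOn ℂ (fun t => f t i) (ball 0 1) := fun i =>
      (differentiableOn_pi.1 hf) i
    have hf0 : ∀ i, ‖f 0 i‖ ≤ M := fun i => (norm_le_pi_norm (f 0) i).trans hfM
    have hE : ∀ t ∈ ball (0 : ℂ) 1, sm (f t) ≤ 2 * ((f t 0).im + (f t 1).im) := fun t ht =>
      factE (by norm_num) le_rfl (cond hT0 (hεp j) (hfR t ht).1 (hfR t ht).2 0)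
        (cond hT0 (hεp j) (hfR t ht).1 (hfR t ht).2 1)
    have hkre : ∀ t, (-Complex.I * (f t 0 + f t 1)).re = (f t 0).im + (f t 1).im := by
      intro t
      simp [Complex.mul_re]
    have hk := h1 (fun t => -Complex.I * (f t 0 + f t 1)) 1 one_pos
      (((hd 0).add (hd 1)).const_mul _) (fun t ht => by
        rw [hkre]
        have h4 := hE t ht
        have h5 := sm_nonneg (f t)
        linarith)
    have hk0 : ‖-Complex.I * (f 0 0 + f 0 1)‖ ≤ 2 * M := by
      rw [norm_mul, norm_neg, Complex.norm_I, one_mul]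
      refine (norm_add_le _ _).trans ?_
      have := hf0 0
      have := hf0 1
      linarith
    have hsm : ∀ t : ℂ, ‖t‖ ≤ 3 / 4 → sm (f t) ≤ 28 * M := by
      intro t ht
      have htb : t ∈ ball (0 : ℂ) 1 := by
        rw [mem_ball_zero_iff]
        linarith
      have h4 := hk t htb
      have h5 := hE t htb
      have h6 : (f t 0).im + (f t 1).im ≤ ‖-Complex.I * (f t 0 + f t 1)‖ := by
        rw [← hkre t]
        exact Complex.re_le_norm _
      have h7 := norm_nonneg (-Complex.I * (f t 0 + f t 1))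
      have h8 := norm_nonneg (-Complex.I * (f 0 0 + f 0 1))
      have h9 : ‖-Complex.I * (f t 0 + f t 1)‖ * (1 / 4) ≤
          ‖-Complex.I * (f 0 0 + f 0 1)‖ * (7 / 4) := by
        calc ‖-Complex.I * (f t 0 + f t 1)‖ * (1 / 4) ≤
            ‖-Complex.I * (f t 0 + f t 1)‖ * (1 - ‖t‖) :=
              mul_le_mul_of_nonneg_left (by linarith) h7
          _ ≤ ‖-Complex.I * (f 0 0 + f 0 1)‖ * (1 + ‖t‖) := h4
          _ ≤ _ := mul_le_mul_of_nonneg_left (by linarith) h8
      linarith
    have hfin : ∀ i, ‖f t i‖ ≤ 6 * (28 * M + 1) + 5 * M := by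
      intro i
      have hki := h1 (fun t => ((28 * M + 1 : ℝ) : ℂ) + Complex.I * f t i) (3 / 4) (by norm_num)
        (((hd i).mono (ball_subset_ball (by norm_num))).const_mul _ |>.const_add _) (fun t ht => by
          have h4 : (((28 * M + 1 : ℝ) : ℂ) + Complex.I * f t i).re =
              28 * M + 1 - (f t i).im := by
            rw [Complex.add_re, Complex.ofReal_re, Complex.mul_re, Complex.I_re, Complex.I_im]
            ring
          rw [h4]
          have h5 := hsm t (by rw [mem_ball_zero_iff] at ht; exact ht.le)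
          have h6 : (f t i).im ≤ sm (f t) := by
            unfold sm
            fin_cases i
            · have h7 := le_abs_self (f t 0).im
              have h8 := abs_nonneg (f t 1).im
              show (f t 0).im ≤ _
              linarith
            · have h7 := le_abs_self (f t 1).im
              have h8 := abs_nonneg (f t 0).im
              show (f t 1).im ≤ _
              linarith
          linarith) t (by rw [mem_ball_zero_iff]; linarith)
      have h4 : ‖((28 * M + 1 : ℝ) : ℂ) + Complex.I * f 0 i‖ ≤ 28 * M + 1 + M := by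
        refine (norm_add_le _ _).trans ?_
        rw [Complex.norm_real, Real.norm_of_nonneg (by linarith), norm_mul, Complex.norm_I,
          one_mul]
        have := hf0 i
        linarith
      have h5 : ‖f t i‖ ≤ ‖((28 * M + 1 : ℝ) : ℂ) + Complex.I * f t i‖ + (28 * M + 1) := by
        have h6 : Complex.I * f t i = (((28 * M + 1 : ℝ) : ℂ) + Complex.I * f t i) -
            ((28 * M + 1 : ℝ) : ℂ) := by ring
        have h7 : ‖f t i‖ = ‖Complex.I * f t i‖ := by
          rw [norm_mul, Complex.norm_I, one_mul]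
        rw [h7, h6]
        refine (norm_sub_le _ _).trans ?_
        rw [Complex.norm_real, Real.norm_of_nonneg (by linarith)]
        have h8 : (((28 * M + 1 : ℝ) : ℂ) + Complex.I * f t i - ((28 * M + 1 : ℝ) : ℂ)) =
            Complex.I * f t i := by ring
        rw [h8]
      have h7 := norm_nonneg (((28 * M + 1 : ℝ) : ℂ) + Complex.I * f t i)
      have h8 := norm_nonneg (((28 * M + 1 : ℝ) : ℂ) + Complex.I * f 0 i)
      have h9 : ‖((28 * M + 1 : ℝ) : ℂ) + Complex.I * f t i‖ * (1 / 4) ≤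
          ‖((28 * M + 1 : ℝ) : ℂ) + Complex.I * f 0 i‖ * (5 / 4) := by
        calc ‖((28 * M + 1 : ℝ) : ℂ) + Complex.I * f t i‖ * (1 / 4) ≤
            ‖((28 * M + 1 : ℝ) : ℂ) + Complex.I * f t i‖ * (3 / 4 - ‖t‖) :=
              mul_le_mul_of_nonneg_left (by linarith) h7
          _ ≤ ‖((28 * M + 1 : ℝ) : ℂ) + Complex.I * f 0 i‖ * (3 / 4 + ‖t‖) := hki
          _ ≤ _ := mul_le_mul_of_nonneg_left (by linarith) h8
      linarith
    rw [pi_norm_le_iff_of_nonneg (by linarith)]
    exact hfin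
  · -- limit
    intro φ ρ f f' hφ hρ hf hf' hlim hR' h00 t0 ht0 i
    have ev0 : ∀ (i : Fin 2) (t : ℂ), t ∈ ball (0 : ℂ) 1 →
        Tendsto (fun j => f j t i) atTop (𝓝 (f' t i)) := fun i t ht =>
      tendsto_pi_nhds.1 (hlim t ht) i
    have key : ∀ t ∈ ball (0 : ℂ) 1, 0 ≤ (f' t i).im := by
      intro t ht
      have hall : ∀ η > 0, -(η * sm (f' t)) ≤ (f' t i).im := by
        intro η hη
        obtain ⟨ρη, hρη, hTη, -⟩ := hC η hη
        have l1 : Tendsto (fun j => sm (f j t)) atTop (𝓝 (sm (f' t))) :=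
          (continuous_sm.tendsto _).comp (hlim t ht)
        have l2 := (Complex.continuous_im.tendsto _).comp (ev0 i t ht)
        refine le_of_tendsto_of_tendsto ((l1.const_mul η).neg) l2 ?_
        have h4 : ∀ᶠ j in atTop, ρ j < ρη := hρ.eventually (Iio_mem_nhds hρη)
        filter_upwards [h4] with j hj
        exact cond hTη (hεp (φ j)) (hR' j t ht).1 ((hR' j t ht).2.trans hj) i
      refine le_of_forall_pos_le_add fun e he => ?_
      set S : ℝ := sm (f' t) + 1 with hS
      have hS0 : 0 < S := by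
        have := sm_nonneg (f' t)
        linarith
      have h4 := hall (e / S) (by positivity)
      have h5 : e / S * sm (f' t) ≤ e := by
        calc e / S * sm (f' t) ≤ e / S * S := by
              apply mul_le_mul_of_nonneg_left _ (by positivity)
              rw [hS]; linarith
          _ = e := by field_simp
      linarith
    rcases (key t0 ht0).lt_or_eq with h4 | h4
    · exact h4
    · exfalso
      have hre : ∀ t, (-Complex.I * f' t i).re = (f' t i).im := by
        intro t
        simp [Complex.mul_re]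
      have h5 := h2 (fun t => -Complex.I * f' t i) 1 (((differentiableOn_pi.1 hf') i).const_mul _)
        (fun t ht => by
          rw [hre]
          exact key t ht) t0 ht0 (by rw [hre]; exact h4.symm) 0 (mem_ball_self one_pos)
      rw [hre] at h5
      have h6 := h00 i
      linarith
  · -- peak
    intro f hf hfc hf0
    have hcont : ContinuousAt f 0 :=
      (hf.continuousOn.continuousAt (isOpen_ball.mem_nhds (mem_ball_self one_pos)))
    have hev : ∀ᶠ t in 𝓝 (0 : ℂ), f t ∈ ball (0 : Cn 2) ρ0 ∧ t ∈ ball (0 : ℂ) 1 := by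
      refine (hcont.eventually ?_).and (isOpen_ball.mem_nhds (mem_ball_self one_pos))
      rw [hf0]
      exact ball_mem_nhds _ hρ0
    obtain ⟨r, hr, hrb⟩ := Metric.eventually_nhds_iff_ball.1 hev
    have hd : ∀ i, DifferentiableOn ℂ (fun t => f t i) (ball 0 1) := fun i =>
      (differentiableOn_pi.1 hf) i
    have hE : ∀ t ∈ ball (0 : ℂ) r, sm (f t) ≤ 2 * ((f t 0).im + (f t 1).im) := fun t ht => by
      obtain ⟨h4, h5⟩ := hrb t ht
      exact factE (by norm_num) le_rfl (clos hT0 (hfc t h5) h4 0) (clos hT0 (hfc t h5) h4 1)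
    have hkre : ∀ t, (-Complex.I * (f t 0 + f t 1)).re = (f t 0).im + (f t 1).im := by
      intro t
      simp [Complex.mul_re]
    have hk := h2 (fun t => -Complex.I * (f t 0 + f t 1)) r
      ((((hd 0).add (hd 1)).const_mul _).mono (fun t ht => (hrb t ht).2)) (fun t ht => by
        rw [hkre]
        have h4 := hE t ht
        have h5 := sm_nonneg (f t)
        linarith) 0 (mem_ball_self hr) (by rw [hf0]; simp)
    have him : ∀ t ∈ ball (0 : ℂ) r, ∀ i : Fin 2, (f t i).im = 0 := by
      intro t ht i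
      have h4 := hk t ht
      rw [hkre] at h4
      have h5 := hE t ht
      rw [h4] at h5
      have h6 := abs_nonneg (f t 0).im
      have h7 := abs_nonneg (f t 1).im
      unfold sm at h5
      fin_cases i
      · show (f t 0).im = 0
        rw [← abs_eq_zero]
        linarith
      · show (f t 1).im = 0
        rw [← abs_eq_zero]
        linarith
    have hz : ∀ i : Fin 2, ∀ᶠ t in 𝓝 (0 : ℂ), f t i = 0 := by
      intro i
      apply real_zero ((hd i).analyticAt (isOpen_ball.mem_nhds (mem_ball_self one_pos)))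
      · show f 0 i = 0
        rw [hf0]
        rfl
      · filter_upwards [ball_mem_nhds (0 : ℂ) hr] with t ht
        exact him t ht i
    have h5 : ∀ᶠ t in 𝓝 (0 : ℂ), f t = 0 := by
      filter_upwards [hz 0, hz 1] with t ht1 ht2
      ext i
      fin_cases i
      · exact ht1
      · exact ht2
    have h6 : AnalyticOnNhd ℂ f (ball 0 1) := hf.analyticOnNhd isOpen_ball
    exact h6.eqOn_zero_of_preconnected_of_eventuallyEq_zero
      (convex_ball (0 : ℂ) 1).isPreconnected (mem_ball_self one_pos) h5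

end KP
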