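import Pool.Agent.Lib.KP.SpecT

/-! # KP, block T: transport of the symmetries -/

set_option autoImplicit false

open Set Filter Topology Metric

namespace KP

theorem tSymB : S_SymB := by
  rintro n m D D' hD' ⟨f, g, hf, hg, hfm, hgm, hgf, hfg⟩ hS p' hp'
  obtain ⟨s, hs, hsm, hss, hsp, O, hO, hiso⟩ := hS (g p') (hgm hp')
  refine ⟨fun x => f (s (g x)), ?_, ?_, ?_, ?_, ?_⟩
  · have h1 : HolOn (fun x => s (g x)) D' := hs.comp hg hgm
    exact hf.comp h1 (fun x hx => hsm (hgm hx))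
  · intro x hx
    exact hfm (hsm (hgm hx))
  · intro x hx
    have h1 := hgf (s (g x)) (hsm (hgm hx))
    dsimp only
    rw [h1, hss _ (hgm hx), hfg x hx]
  · dsimp only
    rw [hsp, hfg p' hp']
  · refine ⟨g ⁻¹' O, ?_, ?_⟩
    · exact (hg.continuousOn.continuousAt (hD'.mem_nhds hp')) hO
    · rintro x ⟨hx1, hx2⟩ hx
      have h1 : s (g x) = g x := by
        rw [← hgf (s (g x)) (hsm (hgm hx2))]
        exact congrArg g hx
      have h2 : g x = g p' := hiso (g x) ⟨hx1, hgm hx2⟩ h1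
      rw [← hfg x hx2, h2, hfg p' hp']

end KP
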