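import Pool.Agent.Lib.KP.SpecT

/-!
# KP, block T: the Siegel domain is symmetric
-/

set_option autoImplicit false

open Set Filter Topology Metric

namespace KP

private theorem ss_isOpen_Sg : IsOpen Sg := by
  have h : Sg = {z : Cn 2 | ‖z 0‖ ^ 2 < (z 1).im} := rfl
  rw [h]
  apply isOpen_lt
  · fun_prop
  · exact Complex.continuous_im.comp (continuous_apply 1)

private theorem ss_mem {z : Cn 2} : z ∈ Sg ↔ Complex.normSq (z 0) < (z 1).im := by
  rw [Complex.normSq_eq_norm_sq]
  rfl

private theorem ss_im_pos {z : Cn 2} (hz : z ∈ Sg) : 0 < (z 1).im := by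
  have h := ss_mem.mp hz
  have := Complex.normSq_nonneg (z 0)
  linarith

private theorem ss_ne {z : Cn 2} (hz : z ∈ Sg) : z 1 ≠ 0 := by
  intro h0
  have := ss_im_pos hz
  rw [h0] at this
  simp at this

private theorem ss_div {f g : Cn 2 → ℂ} {U : Set (Cn 2)} (hf : DifferentiableOn ℂ f U)
    (hg : DifferentiableOn ℂ g U) (h : ∀ z ∈ U, g z ≠ 0) :
    DifferentiableOn ℂ (fun z => f z / g z) U := by
  have h1 : DifferentiableOn ℂ (fun z => f z * (g z)⁻¹) U := hf.mul (hg.inv h)
  simpa only [div_eq_mul_inv] using h1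

/-- The translation and dilation. -/
private noncomputable def ssT (a c : ℂ) (L : ℝ) (z : Cn 2) : Cn 2 :=
  ![(L : ℂ) * z 0 + a, (L : ℂ) ^ 2 * z 1 + 2 * Complex.I * (starRingEnd ℂ) a * ((L : ℂ) * z 0) + c]

private noncomputable def ssS (a c : ℂ) (L : ℝ) (z : Cn 2) : Cn 2 :=
  ![(z 0 - a) / (L : ℂ), (z 1 - 2 * Complex.I * (starRingEnd ℂ) a * (z 0 - a) - c) / (L : ℂ) ^ 2]

private noncomputable def ss0 (z : Cn 2) : Cn 2 :=
  ![-(Complex.I * z 0) / z 1, -1 / z 1]

private theorem ss_TS (a c : ℂ) {L : ℝ} (hL : 0 < L) (z : Cn 2) : ssT a c L (ssS a c L z) = z := by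
  have hL' : (L : ℂ) ≠ 0 := by exact_mod_cast hL.ne'
  funext i
  fin_cases i
  · show (L : ℂ) * ((z 0 - a) / (L : ℂ)) + a = z 0
    field_simp
    ring
  · show (L : ℂ) ^ 2 * ((z 1 - 2 * Complex.I * (starRingEnd ℂ) a * (z 0 - a) - c) / (L : ℂ) ^ 2) +
      2 * Complex.I * (starRingEnd ℂ) a * ((L : ℂ) * ((z 0 - a) / (L : ℂ))) + c = z 1
    field_simp
    ring

private theorem ss_ST (a c : ℂ) {L : ℝ} (hL : 0 < L) (z : Cn 2) : ssS a c L (ssT a c L z) = z := by
  have hL' : (L : ℂ) ≠ 0 := by exact_mod_cast hL.ne'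
  funext i
  fin_cases i
  · show ((L : ℂ) * z 0 + a - a) / (L : ℂ) = z 0
    field_simp
    ring
  · show ((L : ℂ) ^ 2 * z 1 + 2 * Complex.I * (starRingEnd ℂ) a * ((L : ℂ) * z 0) + c -
      2 * Complex.I * (starRingEnd ℂ) a * ((L : ℂ) * z 0 + a - a) - c) / (L : ℂ) ^ 2 = z 1
    field_simp
    ring

private theorem ss_key (a c : ℂ) (L : ℝ) (hc : c.im = Complex.normSq a) (z : Cn 2) :
    (ssT a c L z 1).im - Complex.normSq (ssT a c L z 0) =
      L ^ 2 * ((z 1).im - Complex.normSq (z 0)) := by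
  have e0 : ssT a c L z 0 = (L : ℂ) * z 0 + a := rfl
  have e1 : ssT a c L z 1 =
    (L : ℂ) ^ 2 * z 1 + 2 * Complex.I * (starRingEnd ℂ) a * ((L : ℂ) * z 0) + c := rfl
  have h2 : (L : ℂ) ^ 2 = ((L ^ 2 : ℝ) : ℂ) := by push_cast; rfl
  rw [e0, e1, h2]
  simp only [Complex.normSq_apply, Complex.add_im, Complex.add_re, Complex.mul_im, Complex.mul_re,
    Complex.ofReal_re, Complex.ofReal_im, Complex.I_re, Complex.I_im, Complex.conj_re,
    Complex.conj_im, Complex.re_ofNat, Complex.im_ofNat, hc]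
  ring

private theorem ss_mapT (a c : ℂ) {L : ℝ} (hL : 0 < L) (hc : c.im = Complex.normSq a) :
    MapsTo (ssT a c L) Sg Sg := by
  intro z hz
  have h := ss_key a c L hc z
  have hz' := ss_mem.mp hz
  have hp : 0 < L ^ 2 * ((z 1).im - Complex.normSq (z 0)) :=
    mul_pos (pow_pos hL 2) (by linarith)
  exact ss_mem.mpr (by linarith)

private theorem ss_mapS (a c : ℂ) {L : ℝ} (hL : 0 < L) (hc : c.im = Complex.normSq a) :
    MapsTo (ssS a c L) Sg Sg := by
  intro z hz
  have h := ss_key a c L hc (ssS a c L z)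
  rw [ss_TS a c hL z] at h
  have hz' := ss_mem.mp hz
  have hp : 0 < L ^ 2 * ((ssS a c L z 1).im - Complex.normSq (ssS a c L z 0)) := by
    rw [← h]
    linarith
  have h2 := (mul_pos_iff_of_pos_left (pow_pos hL 2)).mp hp
  exact ss_mem.mpr (by linarith)

private theorem ss_map0 : MapsTo ss0 Sg Sg := by
  intro z hz
  have h := ss_mem.mp hz
  have hne := ss_ne hz
  have hp : 0 < Complex.normSq (z 1) := Complex.normSq_pos.mpr hne
  refine ss_mem.mpr ?_
  show Complex.normSq (-(Complex.I * z 0) / z 1) < (-1 / z 1).im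
  rw [Complex.normSq_div, Complex.normSq_neg, Complex.normSq_mul, Complex.normSq_I, one_mul]
  have him : (-1 / z 1).im = (z 1).im / Complex.normSq (z 1) := by
    rw [Complex.div_im]
    simp
    ring
  rw [him]
  exact (div_lt_div_iff_of_pos_right hp).mpr h

private theorem ss_00 {z : Cn 2} (hz : z ∈ Sg) : ss0 (ss0 z) = z := by
  have hne := ss_ne hz
  funext i
  fin_cases i
  · show -(Complex.I * (-(Complex.I * z 0) / z 1)) / (-1 / z 1) = z 0
    field_simp
    rw [Complex.I_sq]
    ring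
  · show -1 / (-1 / z 1) = z 1
    field_simp

private theorem ss_fix {z : Cn 2} (hz : z ∈ Sg) (h : ss0 z = z) : z = ![0, Complex.I] := by
  have hne := ss_ne hz
  have h0 : -(Complex.I * z 0) / z 1 = z 0 := congrFun h 0
  have h1 : -1 / z 1 = z 1 := congrFun h 1
  have h2 : z 1 * z 1 = -1 := by
    rw [div_eq_iff hne] at h1
    exact h1.symm
  have h3 : (z 1 - Complex.I) * (z 1 + Complex.I) = 0 := by
    have : (z 1 - Complex.I) * (z 1 + Complex.I) = z 1 * z 1 - Complex.I * Complex.I := by ring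
    rw [this, h2, Complex.I_mul_I]
    ring
  have h4 : z 1 + Complex.I ≠ 0 := by
    intro h5
    have h6 := congrArg Complex.im h5
    simp at h6
    have := ss_im_pos hz
    linarith
  have h5 : z 1 = Complex.I := by
    rcases mul_eq_zero.mp h3 with h | h
    · exact sub_eq_zero.mp h
    · exact absurd h h4
  have h6 : z 0 = 0 := by
    rw [h5, div_eq_iff Complex.I_ne_zero] at h0
    have h7 : Complex.I * z 0 = 0 := by linear_combination (-1 / 2 : ℂ) * h0
    exact (mul_eq_zero.mp h7).resolve_left Complex.I_ne_zero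
  funext i
  fin_cases i
  · exact h6
  · exact h5

private theorem ss_p0 : ss0 ![0, Complex.I] = ![0, Complex.I] := by
  funext i
  fin_cases i
  · show -(Complex.I * 0) / Complex.I = 0
    simp
  · show -1 / Complex.I = Complex.I
    rw [div_eq_iff Complex.I_ne_zero, Complex.I_mul_I]

private theorem ss_dT (a c : ℂ) (L : ℝ) : Differentiable ℂ (ssT a c L) := by
  rw [differentiable_pi]
  intro i
  have h0 : Differentiable ℂ (fun z : Cn 2 => z 0) := differentiable_apply (𝕜 := ℂ) (0 : Fin 2)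
  have h1 : Differentiable ℂ (fun z : Cn 2 => z 1) := differentiable_apply (𝕜 := ℂ) (1 : Fin 2)
  fin_cases i
  · exact (h0.const_mul _).add_const _
  · exact ((h1.const_mul _).add ((h0.const_mul _).const_mul _)).add_const _

private theorem ss_dS (a c : ℂ) (L : ℝ) : Differentiable ℂ (ssS a c L) := by
  rw [differentiable_pi]
  intro i
  have h0 : Differentiable ℂ (fun z : Cn 2 => z 0) := differentiable_apply (𝕜 := ℂ) (0 : Fin 2)
  have h1 : Differentiable ℂ (fun z : Cn 2 => z 1) := differentiable_apply (𝕜 := ℂ) (1 : Fin 2)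
  fin_cases i
  · show Differentiable ℂ (fun z : Cn 2 => (z 0 - a) / (L : ℂ))
    simp only [div_eq_mul_inv]
    exact (h0.sub_const _).mul_const _
  · show Differentiable ℂ (fun z : Cn 2 =>
      (z 1 - 2 * Complex.I * (starRingEnd ℂ) a * (z 0 - a) - c) / (L : ℂ) ^ 2)
    simp only [div_eq_mul_inv]
    exact ((h1.sub ((h0.sub_const _).const_mul _)).sub_const _).mul_const _

private theorem ss_d0 : DifferentiableOn ℂ ss0 Sg := by
  rw [differentiableOn_pi]
  intro i
  have h0 : DifferentiableOn ℂ (fun z : Cn 2 => z 0) Sg :=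
    (differentiable_apply (𝕜 := ℂ) (0 : Fin 2)).differentiableOn
  have h1 : DifferentiableOn ℂ (fun z : Cn 2 => z 1) Sg :=
    (differentiable_apply (𝕜 := ℂ) (1 : Fin 2)).differentiableOn
  have hne : ∀ z ∈ Sg, z 1 ≠ 0 := fun z hz => ss_ne hz
  fin_cases i
  · exact ss_div (h0.const_mul _).neg h1 hne
  · exact ss_div (differentiableOn_const _) h1 hne

theorem tSymS : S_SymS := by
  intro p hp
  have hp' := ss_mem.mp hp
  set a : ℂ := p 0 with ha
  set c : ℂ := ⟨(p 1).re, Complex.normSq a⟩ with hc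
  have hcim : c.im = Complex.normSq a := rfl
  set L : ℝ := Real.sqrt ((p 1).im - Complex.normSq a) with hLdef
  have hpos : 0 < (p 1).im - Complex.normSq a := by linarith
  have hL : 0 < L := Real.sqrt_pos.mpr hpos
  have hL2 : L ^ 2 = (p 1).im - Complex.normSq a := Real.sq_sqrt hpos.le
  have hT0 : ssT a c L ![0, Complex.I] = p := by
    funext i
    fin_cases i
    · show (L : ℂ) * 0 + a = p 0
      rw [mul_zero, zero_add]
    · show (L : ℂ) ^ 2 * Complex.I + 2 * Complex.I * (starRingEnd ℂ) a * ((L : ℂ) * 0) + c = p 1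
      have h2 : (L : ℂ) ^ 2 = (((p 1).im - Complex.normSq a : ℝ) : ℂ) := by
        rw [← hL2]
        push_cast
        rfl
      rw [h2]
      apply Complex.ext
      · simp [hc]
      · simp [hc]
  have hS0 : ssS a c L p = ![0, Complex.I] := by
    rw [← hT0]
    exact ss_ST a c hL _
  have hmS := ss_mapS a c hL hcim
  have hmT := ss_mapT a c hL hcim
  refine ⟨fun x => ssT a c L (ss0 (ssS a c L x)), ?_, ?_, ?_, ?_, univ, Filter.univ_mem, ?_⟩
  · rw [holOn_iff ss_isOpen_Sg]
    have h1 : DifferentiableOn ℂ (fun x => ss0 (ssS a c L x)) Sg :=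
      ss_d0.comp (ss_dS a c L).differentiableOn hmS
    exact (ss_dT a c L).comp_differentiableOn h1
  · intro x hx
    exact hmT (ss_map0 (hmS hx))
  · intro x hx
    show ssT a c L (ss0 (ssS a c L (ssT a c L (ss0 (ssS a c L x))))) = x
    rw [ss_ST a c hL, ss_00 (hmS hx), ss_TS a c hL]
  · show ssT a c L (ss0 (ssS a c L p)) = p
    rw [hS0, ss_p0, hT0]
  · intro x hx h
    have h' : ssT a c L (ss0 (ssS a c L x)) = x := h
    have h2 : ss0 (ssS a c L x) = ssS a c L x := by
      have h3 := congrArg (ssS a c L) h'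
      rwa [ss_ST a c hL] at h3
    have h4 := ss_fix (hmS hx.2) h2
    rw [← ss_TS a c hL x, h4, hT0]

end KP
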